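import Pool.Agent.Q62.PS.Fin

/-! # The volumetric-isochoric split: the theorems for matrices -/

set_option autoImplicit false

namespace Pool.Agent.Q62.PS

open MeasureTheory Set Filter Topology
open Pool.Agent.W360.MQ (cab)
open Pool.Agent.TH937.ZC (QL gf)
open Pool.Agent.W523.MQ.OM (T T_cont cab_add)
open Pool.Agent.Y273.VI (RCp Tm Rp RCp_of)

theorem det_cab (A : Matrix (Fin 2) (Fin 2) ℝ) : 0 < A.det ↔ ‖(cab A).2‖ < ‖(cab A).1‖ := by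
  rw [(Pool.Agent.W74.MQ.OPN.main A).2, sub_pos, sq_lt_sq₀ (norm_nonneg _) (norm_nonneg _)]

open scoped Matrix.Norms.L2Operator in
theorem W_eq (h f : ℝ → ℝ) {A : Matrix (Fin 2) (Fin 2) ℝ} (hA : 0 < A.det) :
    h (‖A‖ ^ 2 / A.det) + f A.det = wf h f (cab A) := by
  obtain ⟨h1, h2⟩ := Pool.Agent.W74.MQ.OPN.main A
  have h3 := (det_cab A).1 hA
  have n2 := norm_nonneg (cab A).2
  have e : ‖A‖ ^ 2 / A.det = (‖(cab A).1‖ + ‖(cab A).2‖) / (‖(cab A).1‖ - ‖(cab A).2‖) := by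
    rw [h1, h2]
    have p1 : 0 < ‖(cab A).1‖ + ‖(cab A).2‖ := by linarith
    have p2 : 0 < ‖(cab A).1‖ - ‖(cab A).2‖ := by linarith
    rw [show ‖(cab A).1‖ ^ 2 - ‖(cab A).2‖ ^ 2
      = (‖(cab A).1‖ + ‖(cab A).2‖) * (‖(cab A).1‖ - ‖(cab A).2‖) by ring, pow_two,
      mul_div_mul_left _ _ p1.ne']
  rw [e, h2]
  rfl

open scoped Matrix.Norms.L2Operator in
theorem magic_eq {A : Matrix (Fin 2) (Fin 2) ℝ} (hA : 0 < A.det) :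
    ‖A‖ ^ 2 / A.det + 2 * Real.log (A.det / ‖A‖) = Wm ‖(cab A).1‖ ‖(cab A).2‖ := by
  obtain ⟨h1, h2⟩ := Pool.Agent.W74.MQ.OPN.main A
  have h3 := (det_cab A).1 hA
  have n2 := norm_nonneg (cab A).2
  have p1 : 0 < ‖(cab A).1‖ + ‖(cab A).2‖ := by linarith
  have p2 : 0 < ‖(cab A).1‖ - ‖(cab A).2‖ := by linarith
  have e0 : ‖(cab A).1‖ ^ 2 - ‖(cab A).2‖ ^ 2
      = (‖(cab A).1‖ + ‖(cab A).2‖) * (‖(cab A).1‖ - ‖(cab A).2‖) := by ring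
  have e1 : ‖A‖ ^ 2 / A.det = (‖(cab A).1‖ + ‖(cab A).2‖) / (‖(cab A).1‖ - ‖(cab A).2‖) := by
    rw [h1, h2, e0, pow_two, mul_div_mul_left _ _ p1.ne']
  have e2 : A.det / ‖A‖ = ‖(cab A).1‖ - ‖(cab A).2‖ := by
    rw [h1, h2, e0, mul_comm, mul_div_assoc, div_self p1.ne', mul_one]
  rw [e1, e2]
  rfl

/-- a supporting linear functional of the norm -/
theorem norm_sub (z0 : ℂ) : ∃ u : ℂ, ∀ z : ℂ,
    ‖z0‖ + (u.re * (z - z0).re + u.im * (z - z0).im) ≤ ‖z‖ := by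
  rcases eq_or_ne z0 0 with h0 | h0
  · refine ⟨0, fun z => ?_⟩
    rw [h0]
    simp
  · have hp : 0 < ‖z0‖ := norm_pos_iff.2 h0
    refine ⟨z0 / (‖z0‖ : ℂ), fun z => ?_⟩
    have e1 : (z0 / (‖z0‖ : ℂ)).re = z0.re / ‖z0‖ := Complex.div_ofReal_re z0 ‖z0‖
    have e2 : (z0 / (‖z0‖ : ℂ)).im = z0.im / ‖z0‖ := Complex.div_ofReal_im z0 ‖z0‖
    rw [e1, e2, Complex.sub_re, Complex.sub_im]
    have h1 : z0.re * z.re + z0.im * z.im ≤ ‖z0‖ * ‖z‖ := by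
      have := Complex.re_le_norm ((starRingEnd ℂ) z0 * z)
      rw [norm_mul, RCLike.norm_conj] at this
      simpa [Complex.mul_re] using this
    have h2 : z0.re * z0.re + z0.im * z0.im = ‖z0‖ ^ 2 := by
      rw [← Complex.normSq_eq_norm_sq, Complex.normSq_apply]
    have e3 : ‖z0‖ + (z0.re / ‖z0‖ * (z.re - z0.re) + z0.im / ‖z0‖ * (z.im - z0.im))
        = (‖z0‖ ^ 2 + (z0.re * z.re + z0.im * z.im) - (z0.re * z0.re + z0.im * z0.im)) / ‖z0‖ := by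
      field_simp
      ring
    rw [e3, h2, div_le_iff₀ hp]
    linarith

/-- the linear functional of a matrix -/
noncomputable def Lf (p1 p2 : ℝ) (u1 u2 : ℂ) : Matrix (Fin 2) (Fin 2) ℝ →ₗ[ℝ] ℝ where
  toFun A := p1 * (u1.re * (cab A).1.re + u1.im * (cab A).1.im)
    + p2 * (u2.re * (cab A).2.re + u2.im * (cab A).2.im)
  map_add' A B := by
    rw [cab_add]
    simp only [Prod.fst_add, Prod.snd_add, Complex.add_re, Complex.add_im]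
    ring
  map_smul' c A := by
    have h1 : (cab (c • A)).1 = c • (cab A).1 := by
      unfold cab
      simp only [Matrix.smul_apply, smul_eq_mul, Complex.real_smul]
      push_cast
      ring
    have h2 : (cab (c • A)).2 = c • (cab A).2 := by
      unfold cab
      simp only [Matrix.smul_apply, smul_eq_mul, Complex.real_smul]
      push_cast
      ring
    rw [h1, h2]
    simp only [Complex.smul_re, Complex.smul_im, smul_eq_mul, RingHom.id_apply]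
    ring

open scoped Matrix.Norms.L2Operator in
theorem poly_main (h f : ℝ → ℝ) (W : Matrix (Fin 2) (Fin 2) ℝ → ℝ)
    (hW : ∀ A : Matrix (Fin 2) (Fin 2) ℝ, 0 < A.det → W A = h (‖A‖ ^ 2 / A.det) + f A.det)
    (hR : Rp W) : ∃ e : ℝ, 0 ≤ e ∧ (ConvexOn ℝ (Ioi 0) f → e = 0) ∧
    ∀ F₀ : Matrix (Fin 2) (Fin 2) ℝ, 0 < F₀.det → ∃ (L : Matrix (Fin 2) (Fin 2) ℝ →ₗ[ℝ] ℝ) (β : ℝ),
      ∀ F : Matrix (Fin 2) (Fin 2) ℝ, 0 < F.det →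
        (W F₀ - e * (‖F₀‖ ^ 2 / F₀.det + 2 * Real.log (F₀.det / ‖F₀‖))) + L (F - F₀)
          + β * (F.det - F₀.det)
          ≤ W F - e * (‖F‖ ^ 2 / F.det + 2 * Real.log (F.det / ‖F‖)) := by
  have hW' : ∀ A : Matrix (Fin 2) (Fin 2) ℝ, 0 < A.det → W A = wf h f (cab A) := by
    intro A hA
    rw [hW A hA, W_eq h f hA]
  have hRc : RCp (wf h f) := RCp_of hW' hR
  obtain ⟨e, he, hef, hs⟩ := struct hRc
  refine ⟨e, he, hef, fun F₀ h0 => ?_⟩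
  obtain ⟨p1, p2, r, C, q1, q2, q3, q4⟩ := hs _ _ (norm_nonneg (cab F₀).2) ((det_cab F₀).1 h0)
  obtain ⟨u1, hu1⟩ := norm_sub (cab F₀).1
  obtain ⟨u2, hu2⟩ := norm_sub (cab F₀).2
  refine ⟨Lf p1 p2 u1 u2, r, fun F hF => ?_⟩
  rw [magic_eq h0, magic_eq hF, hW' _ h0, hW' _ hF, wf_wr, wf_wr]
  have h1 := q4 _ _ (norm_nonneg (cab F).2) ((det_cab F).1 hF)
  have h2 := mul_le_mul_of_nonneg_left (hu1 (cab F).1) q1
  have h3 := mul_le_mul_of_nonneg_left (hu2 (cab F).2) q2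
  have e1 : Lf p1 p2 u1 u2 (F - F₀) = p1 * (u1.re * ((cab F).1 - (cab F₀).1).re
      + u1.im * ((cab F).1 - (cab F₀).1).im) + p2 * (u2.re * ((cab F).2 - (cab F₀).2).re
      + u2.im * ((cab F).2 - (cab F₀).2).im) := by
    have e2 : cab F = cab (F - F₀) + cab F₀ := by rw [← cab_add, sub_add_cancel]
    have e3 : (cab F).1 - (cab F₀).1 = (cab (F - F₀)).1 := by rw [e2]; simp
    have e4 : (cab F).2 - (cab F₀).2 = (cab (F - F₀)).2 := by rw [e2]; simp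
    rw [e3, e4]
    rfl
  rw [e1, (Pool.Agent.W74.MQ.OPN.main F).2, (Pool.Agent.W74.MQ.OPN.main F₀).2]
  unfold Pf at q3 h1
  linarith

open scoped Matrix.Norms.L2Operator in
theorem quasi_main (h f : ℝ → ℝ) (W : Matrix (Fin 2) (Fin 2) ℝ → ℝ)
    (hW : ∀ A : Matrix (Fin 2) (Fin 2) ℝ, 0 < A.det → W A = h (‖A‖ ^ 2 / A.det) + f A.det)
    (hR : Rp W) (F₀ : Matrix (Fin 2) (Fin 2) ℝ) (h0 : 0 < F₀.det) {Ω : Set (Fin 2 → ℝ)}
    {ϑ : (Fin 2 → ℝ) → (Fin 2 → ℝ)} (hT : Tm Ω ϑ)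
    (hpos : ∀ᵐ x ∂(volume.restrict Ω), 0 < (F₀ + LinearMap.toMatrix'
      ((fderiv ℝ ϑ x : (Fin 2 → ℝ) →L[ℝ] (Fin 2 → ℝ)) :
        (Fin 2 → ℝ) →ₗ[ℝ] (Fin 2 → ℝ))).det)
    (hfin : ∫⁻ x in Ω, ENNReal.ofReal (W (F₀ + LinearMap.toMatrix'
      ((fderiv ℝ ϑ x : (Fin 2 → ℝ) →L[ℝ] (Fin 2 → ℝ)) :
        (Fin 2 → ℝ) →ₗ[ℝ] (Fin 2 → ℝ)))) ≠ ⊤) :
    IntegrableOn (fun x => W (F₀ + LinearMap.toMatrix'
      ((fderiv ℝ ϑ x : (Fin 2 → ℝ) →L[ℝ] (Fin 2 → ℝ)) :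
        (Fin 2 → ℝ) →ₗ[ℝ] (Fin 2 → ℝ)))) Ω ∧
    W F₀ * (volume Ω).toReal ≤ ∫ x in Ω, W (F₀ + LinearMap.toMatrix'
      ((fderiv ℝ ϑ x : (Fin 2 → ℝ) →L[ℝ] (Fin 2 → ℝ)) :
        (Fin 2 → ℝ) →ₗ[ℝ] (Fin 2 → ℝ))) := by
  have hW' : ∀ A : Matrix (Fin 2) (Fin 2) ℝ, 0 < A.det → W A = wf h f (cab A) := by
    intro A hA
    rw [hW A hA, W_eq h f hA]
  have hRc : RCp (wf h f) := RCp_of hW' hR
  have hpos' : ∀ᵐ x ∂(volume.restrict Ω),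
      ‖(T F₀ (fderiv ℝ ϑ x)).2‖ < ‖(T F₀ (fderiv ℝ ϑ x)).1‖ := by
    filter_upwards [hpos] with x hx
    exact (det_cab _).1 hx
  have hev : (fun x => W (F₀ + LinearMap.toMatrix'
      ((fderiv ℝ ϑ x : (Fin 2 → ℝ) →L[ℝ] (Fin 2 → ℝ)) :
        (Fin 2 → ℝ) →ₗ[ℝ] (Fin 2 → ℝ)))) =ᵐ[volume.restrict Ω]
      fun x => wf h f (T F₀ (fderiv ℝ ϑ x)) := by
    filter_upwards [hpos] with x hx
    exact hW' _ hx
  have hfin' : ∫⁻ x in Ω, ENNReal.ofReal (wf h f (T F₀ (fderiv ℝ ϑ x))) ≠ ⊤ := by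
    have e := lintegral_congr_ae (hev.fun_comp ENNReal.ofReal)
    simp only [Function.comp] at e
    rw [← e]
    exact hfin
  obtain ⟨h1, h2⟩ := main_c hRc hT ((det_cab F₀).1 h0) hpos' hfin'
  refine ⟨h1.congr_fun_ae hev.symm, ?_⟩
  rw [integral_congr_ae hev, hW' F₀ h0]
  exact h2

end Pool.Agent.Q62.PS
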