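import Mathlib

/-! # Convexity from symmetric second differences; infinitesimal slopes -/

set_option autoImplicit false

namespace Pool.Agent.Q62.PS

open Set Filter Topology

/-- a continuous function on an open interval whose symmetric second differences are nonnegative
for arbitrarily small steps at every point is convex -/
theorem conv_of_freq {u : ℝ → ℝ} {J : Set ℝ} (hJ : Convex ℝ J) (hu : ContinuousOn u J)
    (h : ∀ x ∈ J, ∃ᶠ δ in 𝓝[>] (0 : ℝ), 2 * u x ≤ u (x + δ) + u (x - δ)) :
    ConvexOn ℝ J u := by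
  refine LinearOrder.convexOn_of_lt hJ fun p hp q hq hpq a b ha hb hab => ?_
  by_contra hcon
  push Not at hcon
  simp only [smul_eq_mul] at hcon
  set m : ℝ := a * p + b * q with hm
  have hqp : 0 < q - p := by linarith
  have hmp : 0 < m - p := by
    have : m - p = b * (q - p) := by
      have : a = 1 - b := by linarith
      rw [hm, this]; ring
    rw [this]; positivity
  have hqm : 0 < q - m := by
    have : q - m = a * (q - p) := by
      have : b = 1 - a := by linarith
      rw [hm, this]; ring
    rw [this]; positivity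
  set k : ℝ := (u q - u p) / (q - p) with hk
  have hkq : k * (q - p) = u q - u p := by
    rw [hk]; field_simp
  set D : ℝ := u m - (u p + k * (m - p)) with hD
  have hDpos : 0 < D := by
    have : u p + k * (m - p) = a * u p + b * u q := by
      have e1 : m - p = b * (q - p) := by
        have : a = 1 - b := by linarith
        rw [hm, this]; ring
      rw [e1]
      have e2 : k * (b * (q - p)) = b * (u q - u p) := by rw [← hkq]; ring
      rw [e2]
      have : a = 1 - b := by linarith
      rw [this]; ring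
    rw [hD, this]
    linarith
  set ε : ℝ := D / (2 * ((m - p) * (q - m))) with hε
  have hε0 : 0 < ε := by positivity
  set w : ℝ → ℝ := fun x => u x - (u p + k * (x - p)) + ε * ((x - p) * (x - q)) with hw
  have hpqJ : Icc p q ⊆ J := hJ.ordConnected.out hp hq
  have hwc : ContinuousOn w (Icc p q) := by
    refine ContinuousOn.add (ContinuousOn.sub (hu.mono hpqJ) ?_) ?_
    · fun_prop
    · fun_prop
  obtain ⟨x, hx, hmax⟩ := isCompact_Icc.exists_isMaxOn (nonempty_Icc.2 hpq.le) hwc
  have hwm : 0 < w m := by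
    have : w m = D / 2 := by
      simp only [hw]
      have e1 : ε * ((m - p) * (m - q)) = -(D / 2) := by
        rw [hε]
        field_simp
        ring
      rw [e1]
      rw [hD]
      ring
    rw [this]; linarith
  have hxm : w m ≤ w x := hmax (mem_Icc.2 ⟨by linarith, by linarith⟩)
  have hwp : w p = 0 := by simp [hw]
  have hwq : w q = 0 := by
    simp only [hw, sub_self, mul_zero, add_zero]
    rw [hkq]; ring
  have hxp : p < x := by
    rcases eq_or_lt_of_le hx.1 with h1 | h1
    · rw [← h1, hwp] at hxm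
      linarith
    · exact h1
  have hxq : x < q := by
    rcases eq_or_lt_of_le hx.2 with h1 | h1
    · rw [h1, hwq] at hxm
      linarith
    · exact h1
  have hev : ∀ᶠ δ in 𝓝[>] (0 : ℝ), δ < min (x - p) (q - x) :=
    nhdsWithin_le_nhds (Iio_mem_nhds (lt_min (by linarith) (by linarith)))
  obtain ⟨δ, ⟨h1, h2⟩, h3⟩ := ((h x (hpqJ hx)).and_eventually hev).and_eventually
    (self_mem_nhdsWithin (a := (0 : ℝ)) (s := Ioi 0)) |>.exists
  have hδ : 0 < δ := h3
  have h4 := h2.trans_le (min_le_left _ _)
  have h5 := h2.trans_le (min_le_right _ _)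
  have h6 : w (x + δ) ≤ w x := hmax (mem_Icc.2 ⟨by linarith, by linarith⟩)
  have h7 : w (x - δ) ≤ w x := hmax (mem_Icc.2 ⟨by linarith, by linarith⟩)
  simp only [hw] at h6 h7
  have h8 : 0 < ε * δ ^ 2 := by positivity
  nlinarith

/-- the failure of convexity at one point, for all small steps -/
theorem exists_pt {f : ℝ → ℝ} (hf : ContinuousOn f (Ioi 0)) {c : ℝ}
    (h : ¬ ConvexOn ℝ (Ioi 0) (fun r => f r + c * Real.log r)) :
    ∃ r : ℝ, 0 < r ∧ ∀ᶠ δ in 𝓝[>] (0 : ℝ), (f (r + δ) + c * Real.log (r + δ))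
      + (f (r - δ) + c * Real.log (r - δ)) < 2 * (f r + c * Real.log r) := by
  by_contra hcon
  push Not at hcon
  apply h
  have hc : ContinuousOn (fun r => f r + c * Real.log r) (Ioi 0) := by
    refine hf.add (continuousOn_const.mul ?_)
    exact Real.continuousOn_log.mono fun x hx => ne_of_gt hx
  refine conv_of_freq (convex_Ioi 0) hc fun x hx => ?_
  exact hcon x hx

theorem log_gap : 0 < Real.log 2 - Real.log 3 / 2 := by
  have h : Real.log 3 < Real.log 4 := Real.log_lt_log (by norm_num) (by norm_num)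
  have h2 : Real.log 4 = 2 * Real.log 2 := by
    rw [show (4 : ℝ) = 2 ^ 2 by norm_num, Real.log_pow]
    norm_num
  linarith

/-- three points -/
theorem three_pt {g : ℝ → ℝ} {c : ℝ} (h : ConvexOn ℝ (Ioi 0) (fun r => g r + c * Real.log r)) :
    c * (Real.log 2 - Real.log 3 / 2) ≤ (g 1 + g 3) / 2 - g 2 := by
  have h1 := h.2 (show (1 : ℝ) ∈ Ioi 0 by simp) (show (3 : ℝ) ∈ Ioi 0 by simp)
    (show (0 : ℝ) ≤ 1 / 2 by norm_num) (show (0 : ℝ) ≤ 1 / 2 by norm_num) (by norm_num)
  simp only [smul_eq_mul, Real.log_one, mul_zero, add_zero] at h1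
  norm_num at h1
  linarith

/-- the smallest slope to the right of a point is a supporting slope -/
theorem right_slope {G : ℝ → ℝ} {S : Set ℝ} (hG : ConvexOn ℝ S G) {t b L : ℝ}
    (ht : t ∈ S) (hb : b ∈ S) (htb : t < b)
    (hL : ∀ u ∈ S, t < u → L * (u - t) ≤ G u - G t) :
    ∃ k, L ≤ k ∧ ∀ u ∈ S, G t + k * (u - t) ≤ G u := by
  set A : Set ℝ := {x | ∃ u ∈ S, t < u ∧ x = (G u - G t) / (u - t)} with hA
  have hne : A.Nonempty := ⟨_, b, hb, htb, rfl⟩
  have hbdL : ∀ x ∈ A, L ≤ x := by
    rintro x ⟨u, hu, htu, rfl⟩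
    rw [le_div_iff₀ (by linarith)]
    exact hL u hu htu
  have hbd : BddBelow A := ⟨L, hbdL⟩
  refine ⟨sInf A, le_csInf hne hbdL, fun u hu => ?_⟩
  rcases lt_trichotomy u t with h | h | h
  · -- to the left
    have h1 : (G t - G u) / (t - u) ≤ sInf A := by
      refine le_csInf hne ?_
      rintro x ⟨y, hy, hty, rfl⟩
      exact hG.slope_mono_adjacent hu hy h hty
    rw [div_le_iff₀ (by linarith)] at h1
    nlinarith
  · subst h
    simp
  · have h1 : sInf A ≤ (G u - G t) / (u - t) := csInf_le hbd ⟨u, hu, h, rfl⟩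
    rw [le_div_iff₀ (by linarith)] at h1
    linarith

end Pool.Agent.Q62.PS
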