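import Pool.Agent.Q62.PS.Sup3
import Pool.Agent.Y273.VI.Fin

/-! # The volumetric-isochoric split: quasiconvexity -/

set_option autoImplicit false

namespace Pool.Agent.Q62.PS

open MeasureTheory Set Filter Topology
open Pool.Agent.W360.MQ (cab)
open Pool.Agent.TH937.ZC (QL gf)
open Pool.Agent.W523.MQ.OM (T T_cont)
open Pool.Agent.Y273.VI (RCp Tm Dat pt_int pt_bd pt_ql T_meas ker_ql Gf Kf Rp RCp_of sub_grad_on
  meas_W)

/-! ### the energy `s / v + 2 log v` -/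

/-- the coefficients -/
noncomputable def am (v : ℝ) : ℝ := 1 / v

/-- the coefficients -/
noncomputable def bm (v : ℝ) : ℝ := 2 * Real.log v

theorem gf_m (F : ℂ × ℂ) : gf am bm F = Wm ‖F.1‖ ‖F.2‖ := by
  unfold gf am bm Wm
  ring

theorem d_am {v : ℝ} (hv : 0 < v) : HasDerivAt am (-1 / v ^ 2) v := by
  have h := (hasDerivAt_inv hv.ne')
  refine (h.congr_deriv (by ring)).congr_of_eventuallyEq (Filter.Eventually.of_forall fun x => ?_)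
  unfold am
  rw [one_div]

theorem d_bm {v : ℝ} (hv : 0 < v) : HasDerivAt bm (2 / v) v := by
  have h := ((Real.hasDerivAt_log hv.ne').const_mul 2)
  exact h.congr_deriv (by ring)

theorem cv_m (s : ℝ) : ConvexOn ℝ (Ioc 0 s) (fun v => am v * s + bm v) := by
  have hd : ∀ v ∈ Ioi (0 : ℝ), HasDerivAt (fun v => am v * s + bm v) (-1 / v ^ 2 * s + 2 / v) v :=
    fun v hv => ((d_am hv).mul_const s).add (d_bm hv)
  refine MonotoneOn.convexOn_of_deriv (convex_Ioc _ _) ?_ ?_ ?_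
  · intro v hv
    exact (hd v (mem_Ioi.2 hv.1)).continuousAt.continuousWithinAt
  · intro v hv
    rw [interior_Ioc] at hv
    exact (hd v (mem_Ioi.2 hv.1)).differentiableAt.differentiableWithinAt
  · rw [interior_Ioc]
    intro x hx y hy hxy
    rw [(hd x (mem_Ioi.2 hx.1)).deriv, (hd y (mem_Ioi.2 hy.1)).deriv]
    have px : 0 < x := hx.1
    have py : 0 < y := hy.1
    have e : (-1 / y ^ 2 * s + 2 / y) - (-1 / x ^ 2 * s + 2 / x)
        = (y - x) * ((s - x) * y + (s - y) * x) / (x ^ 2 * y ^ 2) := by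
      field_simp
      ring
    have h1 : 0 ≤ (y - x) * ((s - x) * y + (s - y) * x) / (x ^ 2 * y ^ 2) := by
      have a1 : 0 ≤ y - x := by linarith
      have a2 : 0 ≤ s - x := by linarith [hx.2]
      have a3 : 0 ≤ s - y := by linarith [hy.2]
      positivity
    linarith

theorem dat_m {ρ : ℝ} (hρ : 0 < ρ) : Dat am bm ρ (-1 / ρ ^ 2) (2 / ρ) where
  cv := cv_m
  ρ0 := hρ
  dA := d_am hρ
  dB := d_bm hρ
  ab := by
    rw [abs_of_pos (by positivity)]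
    unfold am
    refine le_of_eq ?_
    field_simp
    ring

theorem magic {F₀ : Matrix (Fin 2) (Fin 2) ℝ} {Ω : Set (Fin 2 → ℝ)}
    {ϑ : (Fin 2 → ℝ) → (Fin 2 → ℝ)} (h : Tm Ω ϑ) (hF : ‖(cab F₀).2‖ < ‖(cab F₀).1‖)
    (hpos : ∀ᵐ x ∂(volume.restrict Ω), ‖(T F₀ (fderiv ℝ ϑ x)).2‖ < ‖(T F₀ (fderiv ℝ ϑ x)).1‖)
    (hfin : ∫⁻ x in Ω, ENNReal.ofReal (gf am bm (T F₀ (fderiv ℝ ϑ x))) ≠ ⊤) :
    IntegrableOn (fun x => gf am bm (T F₀ (fderiv ℝ ϑ x))) Ω ∧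
      gf am bm (cab F₀) * (volume Ω).toReal ≤ ∫ x in Ω, gf am bm (T F₀ (fderiv ℝ ϑ x)) := by
  have hm := meas_W cv_m F₀ hpos
  set v0 : ℝ := ‖(cab F₀).1‖ - ‖(cab F₀).2‖ with hv0
  set s0 : ℝ := ‖(cab F₀).1‖ + ‖(cab F₀).2‖ with hs0
  have hv0p : 0 < v0 := by rw [hv0]; linarith
  have key : ∀ ρ : ℝ, 0 < ρ → ρ < v0 → _ := fun ρ h1 h2 => (dat_m h1).main h h2 hpos hfin hm
  refine ⟨(key (v0 / 2) (by positivity) (by linarith)).1, ?_⟩
  set I : ℝ := ∫ x in Ω, gf am bm (T F₀ (fderiv ℝ ϑ x)) with hI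
  set g : ℝ → ℝ := fun ρ => ((am ρ + -1 / ρ ^ 2 * (v0 - ρ)) * s0
    + (bm ρ + 2 / ρ * (v0 - ρ))) * (volume Ω).toReal with hg
  have hgc : Tendsto g (𝓝[<] v0) (𝓝 (g v0)) := by
    have : ContinuousAt g v0 := by
      simp only [hg, am, bm]
      have c1 : ContinuousAt (fun ρ : ℝ => 1 / ρ) v0 :=
        continuousAt_const.div continuousAt_id hv0p.ne'
      have c2 : ContinuousAt (fun ρ : ℝ => -1 / ρ ^ 2) v0 :=
        continuousAt_const.div (continuousAt_id.pow 2) (by positivity)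
      have c3 : ContinuousAt (fun ρ : ℝ => 2 / ρ) v0 :=
        continuousAt_const.div continuousAt_id hv0p.ne'
      have c4 : ContinuousAt (fun ρ : ℝ => Real.log ρ) v0 := Real.continuousAt_log hv0p.ne'
      have c5 : ContinuousAt (fun ρ : ℝ => v0 - ρ) v0 := by fun_prop
      exact (((c1.add (c2.mul c5)).mul continuousAt_const).add
        ((continuousAt_const.mul c4).add (c3.mul c5))).mul continuousAt_const
    exact this.tendsto.mono_left nhdsWithin_le_nhds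
  have hle : g v0 ≤ I := by
    refine le_of_tendsto hgc ?_
    filter_upwards [Ioo_mem_nhdsLT hv0p] with ρ hρ
    exact (key ρ hρ.1 hρ.2).2
  refine le_trans (le_of_eq ?_) hle
  simp only [hg, sub_self, mul_zero, add_zero]
  unfold gf
  rw [← hv0, ← hs0]

/-! ### the polyconvex functions -/

theorem Pf_ql {p1 p2 r C : ℝ} (h1 : 0 ≤ p1) (h2 : 0 ≤ p2) {F0 : ℂ × ℂ} (hF : ‖F0.2‖ < ‖F0.1‖) :
    Continuous (fun F : ℂ × ℂ => Pf p1 p2 r C ‖F.1‖ ‖F.2‖) ∧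
      QL (fun F : ℂ × ℂ => Pf p1 p2 r C ‖F.1‖ ‖F.2‖) F0 := by
  set v0 : ℝ := ‖F0.1‖ - ‖F0.2‖ with hv0
  have hv : 0 < v0 := by rw [hv0]; linarith
  have key := ker_ql (α := fun _ => 0) (ρ := v0 / 2) (v0 := v0)
    (a0 := (p1 + p2) / 2 + v0 / 2 * r) (b0 := C + v0 / 2 * ((p1 - p2) / 2)) (A := r)
    (B := (p1 - p2) / 2) (convexOn_const 0 convex_univ) (fun _ _ => rfl) (by positivity)
    (by linarith) (by
      rw [abs_le]
      constructor <;> linarith) (F0 := F0) rfl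
  have e : (fun F : ℂ × ℂ => Gf (fun _ => 0) (v0 / 2) ((p1 + p2) / 2 + v0 / 2 * r)
      (C + v0 / 2 * ((p1 - p2) / 2)) r ((p1 - p2) / 2) (‖F.1‖ + ‖F.2‖) (‖F.1‖ - ‖F.2‖))
      = fun F : ℂ × ℂ => Pf p1 p2 r C ‖F.1‖ ‖F.2‖ := by
    funext F
    unfold Gf Kf Pf
    simp only [intervalIntegral.integral_zero, zero_mul]
    ring
  rw [e] at key
  exact key

/-! ### measurability -/

theorem h_cont {h f : ℝ → ℝ} (hR : RCp (wf h f)) : ContinuousOn h (Ici 1) := by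
  have h1 : ContinuousOn (fun x => gg h f x 1) (Ioi 0) := (gg_conv hR one_pos).continuousOn isOpen_Ioi
  have hsub : Ici (1 : ℝ) ⊆ Ioi 0 := fun x hx => mem_Ioi.2 (lt_of_lt_of_le one_pos hx)
  refine ((h1.mono hsub).sub ((f_cont hR).mono hsub)).congr fun x hx => ?_
  have hx' : (1 : ℝ) ≤ x := hx
  simp only [Pi.sub_apply]
  unfold gg
  rw [max_eq_left hx', min_eq_right hx', div_one, mul_one]
  ring

theorem wf_meas {h f : ℝ → ℝ} (hR : RCp (wf h f)) (F₀ : Matrix (Fin 2) (Fin 2) ℝ)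
    {Ω : Set (Fin 2 → ℝ)} {ϑ : (Fin 2 → ℝ) → (Fin 2 → ℝ)}
    (hpos : ∀ᵐ x ∂(volume.restrict Ω), ‖(T F₀ (fderiv ℝ ϑ x)).2‖ < ‖(T F₀ (fderiv ℝ ϑ x)).1‖) :
    AEStronglyMeasurable (fun x => wf h f (T F₀ (fderiv ℝ ϑ x))) (volume.restrict Ω) := by
  have hP : IsOpen {F : ℂ × ℂ | ‖F.2‖ < ‖F.1‖} := isOpen_lt (by fun_prop) (by fun_prop)
  have hc : ContinuousOn (wf h f) {F : ℂ × ℂ | ‖F.2‖ < ‖F.1‖} := by
    have h1 : MapsTo (fun F : ℂ × ℂ => (‖F.1‖ + ‖F.2‖) / (‖F.1‖ - ‖F.2‖))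
        {F : ℂ × ℂ | ‖F.2‖ < ‖F.1‖} (Ici 1) := fun F hF => t_ge (norm_nonneg _) hF
    have h2 : ContinuousOn (fun F : ℂ × ℂ => (‖F.1‖ + ‖F.2‖) / (‖F.1‖ - ‖F.2‖))
        {F : ℂ × ℂ | ‖F.2‖ < ‖F.1‖} := by
      refine ContinuousOn.div (Continuous.continuousOn (by fun_prop))
        (Continuous.continuousOn (by fun_prop)) fun F hF => ?_
      have hF' : ‖F.2‖ < ‖F.1‖ := hF
      linarith
    have h3 : MapsTo (fun F : ℂ × ℂ => ‖F.1‖ ^ 2 - ‖F.2‖ ^ 2)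
        {F : ℂ × ℂ | ‖F.2‖ < ‖F.1‖} (Ioi 0) := fun F hF => dd_pos.2 hF
    have h4 : ContinuousOn (fun F : ℂ × ℂ => ‖F.1‖ ^ 2 - ‖F.2‖ ^ 2)
        {F : ℂ × ℂ | ‖F.2‖ < ‖F.1‖} := Continuous.continuousOn (by fun_prop)
    exact ((h_cont hR).comp h2 h1).add ((f_cont hR).comp h4 h3)
  classical
  have hm := ContinuousOn.measurable_piecewise hc
    (continuousOn_const (c := (0 : ℝ)) (s := {F : ℂ × ℂ | ‖F.2‖ < ‖F.1‖}ᶜ)) hP.measurableSet
  have hm2 := (hm.comp (T_meas F₀ ϑ)).aestronglyMeasurable (μ := volume.restrict Ω)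
  refine hm2.congr ?_
  filter_upwards [hpos] with x hx
  have hx' : T F₀ (fderiv ℝ ϑ x) ∈ {F : ℂ × ℂ | ‖F.2‖ < ‖F.1‖} := hx
  simp only [Function.comp]
  rw [Set.piecewise_eq_of_mem _ _ _ hx']

/-! ### the structure theorem in complex notation -/

theorem struct {h f : ℝ → ℝ} (hR : RCp (wf h f)) : ∃ e : ℝ, 0 ≤ e ∧
    (ConvexOn ℝ (Ioi 0) f → e = 0) ∧
    ∀ X0 Y0, 0 ≤ Y0 → Y0 < X0 → ∃ p1 p2 r C : ℝ, 0 ≤ p1 ∧ 0 ≤ p2 ∧
      Pf p1 p2 r C X0 Y0 + e * Wm X0 Y0 = wr h f X0 Y0 ∧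
      ∀ X Y, 0 ≤ Y → Y < X → Pf p1 p2 r C X Y + e * Wm X Y ≤ wr h f X Y := by
  obtain ⟨c, h1, h2, h3⟩ := exists_split hR
  obtain ⟨e, he, he0, hs⟩ := support (h := h) (c := c) h1
  refine ⟨e, he, fun hf => he0 (h3 hf), fun X0 Y0 hY0 h0 => ?_⟩
  obtain ⟨p1, p2, r, C, q1, q2, q3, q4⟩ := hs X0 Y0 hY0 h0
  have hdp : ∀ X Y : ℝ, 0 ≤ Y → Y < X → 0 < X ^ 2 - Y ^ 2 := by
    intro X Y hY hXY
    have : X ^ 2 - Y ^ 2 = (X + Y) * (X - Y) := by ring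
    rw [this]
    exact mul_pos (by linarith) (by linarith)
  set d0 : ℝ := X0 ^ 2 - Y0 ^ 2 with hd0
  have hd0p : 0 < d0 := hdp X0 Y0 hY0 h0
  obtain ⟨q, hq⟩ := sub_grad_on h2 isOpen_Ioi (mem_Ioi.2 hd0p)
  have hwr : ∀ X Y : ℝ, wr h f X Y = wr h (lg c) X Y
      + (f (X ^ 2 - Y ^ 2) + c * Real.log (X ^ 2 - Y ^ 2)) := by
    intro X Y
    unfold wr lg
    ring
  refine ⟨p1, p2, r + q, C + (f d0 + c * Real.log d0) - q * d0, q1, q2, ?_, ?_⟩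
  · rw [hwr, ← q3, ← hd0]
    unfold Pf
    rw [← hd0]
    ring
  · intro X Y hY hXY
    have h4 := q4 X Y hY hXY
    have h5 := hq (X ^ 2 - Y ^ 2) (mem_Ioi.2 (hdp X Y hY hXY))
    rw [hwr]
    have e1 : Pf p1 p2 (r + q) (C + (f d0 + c * Real.log d0) - q * d0) X Y
        = Pf p1 p2 r C X Y + (f d0 + c * Real.log d0 + q * (X ^ 2 - Y ^ 2 - d0)) := by
      unfold Pf
      ring
    rw [e1]
    linarith

/-! ### quasiconvexity -/

theorem main_c {h f : ℝ → ℝ} (hR : RCp (wf h f)) {F₀ : Matrix (Fin 2) (Fin 2) ℝ}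
    {Ω : Set (Fin 2 → ℝ)} {ϑ : (Fin 2 → ℝ) → (Fin 2 → ℝ)} (hT : Tm Ω ϑ)
    (hF : ‖(cab F₀).2‖ < ‖(cab F₀).1‖)
    (hpos : ∀ᵐ x ∂(volume.restrict Ω), ‖(T F₀ (fderiv ℝ ϑ x)).2‖ < ‖(T F₀ (fderiv ℝ ϑ x)).1‖)
    (hfin : ∫⁻ x in Ω, ENNReal.ofReal (wf h f (T F₀ (fderiv ℝ ϑ x))) ≠ ⊤) :
    IntegrableOn (fun x => wf h f (T F₀ (fderiv ℝ ϑ x))) Ω ∧
      wf h f (cab F₀) * (volume Ω).toReal ≤ ∫ x in Ω, wf h f (T F₀ (fderiv ℝ ϑ x)) := by
  obtain ⟨e, he, _, hs⟩ := struct hR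
  obtain ⟨p1, p2, r, C, q1, q2, q3, q4⟩ := hs _ _ (norm_nonneg (cab F₀).2) hF
  set μ := volume.restrict Ω with hμ
  have hm : AEStronglyMeasurable (fun x => wf h f (T F₀ (fderiv ℝ ϑ x))) μ := wf_meas hR F₀ hpos
  have hmm : AEStronglyMeasurable (fun x => gf am bm (T F₀ (fderiv ℝ ϑ x))) μ :=
    meas_W cv_m F₀ hpos
  obtain ⟨hPc, hPq⟩ := Pf_ql (r := r) (C := C) q1 q2 hF
  have hPi : Integrable (fun x => Pf p1 p2 r C ‖(T F₀ (fderiv ℝ ϑ x)).1‖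
      ‖(T F₀ (fderiv ℝ ϑ x)).2‖) μ := pt_int hPc F₀ hT
  obtain ⟨K, hK⟩ := pt_bd hPc F₀ hT
  have hP := pt_ql hPc F₀ hPq hT
  have hlow : ∀ᵐ x ∂μ, Pf p1 p2 r C ‖(T F₀ (fderiv ℝ ϑ x)).1‖ ‖(T F₀ (fderiv ℝ ϑ x)).2‖
      + e * gf am bm (T F₀ (fderiv ℝ ϑ x)) ≤ wf h f (T F₀ (fderiv ℝ ϑ x)) := by
    filter_upwards [hpos] with x hx
    rw [gf_m, wf_wr]
    exact q4 _ _ (norm_nonneg _) hx
  -- the positive part
  have hWp : Integrable (fun x => max (wf h f (T F₀ (fderiv ℝ ϑ x))) 0) μ := by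
    refine ⟨hm.sup aestronglyMeasurable_const, ?_⟩
    have hp0 : 0 ≤ᵐ[μ] fun x => max (wf h f (T F₀ (fderiv ℝ ϑ x))) 0 :=
      Eventually.of_forall fun x => le_max_right _ _
    rw [hasFiniteIntegral_iff_ofReal hp0]
    have e : ∀ x, ENNReal.ofReal (max (wf h f (T F₀ (fderiv ℝ ϑ x))) 0)
        = ENNReal.ofReal (wf h f (T F₀ (fderiv ℝ ϑ x))) := by
      intro x
      rcases le_total (wf h f (T F₀ (fderiv ℝ ϑ x))) 0 with h1 | h1
      · rw [max_eq_right h1, ENNReal.ofReal_of_nonpos h1, ENNReal.ofReal_zero]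
      · rw [max_eq_left h1]
    simp only [e]
    exact lt_top_iff_ne_top.2 hfin
  -- the second part of the support function
  have hM : Integrable (fun x => e * gf am bm (T F₀ (fderiv ℝ ϑ x))) μ ∧
      e * gf am bm (cab F₀) * (volume Ω).toReal
        ≤ ∫ x, e * gf am bm (T F₀ (fderiv ℝ ϑ x)) ∂μ := by
    rcases eq_or_lt_of_le he with h0 | h0
    · rw [← h0]
      simp only [zero_mul, integral_zero, le_refl, and_true]
      exact integrable_zero _ _ _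
    have hfm : ∫⁻ x in Ω, ENNReal.ofReal (gf am bm (T F₀ (fderiv ℝ ϑ x))) ≠ ⊤ := by
      have hd : Integrable (fun x => e⁻¹ * (max (wf h f (T F₀ (fderiv ℝ ϑ x))) 0 + K)) μ := by
        have hK' : Integrable (fun _ : Fin 2 → ℝ => K) μ := by
          have : IntegrableOn (fun _ : Fin 2 → ℝ => K) Ω := integrableOn_const hT.fin.ne
          exact this
        exact (hWp.add hK').const_mul _
      have hle : ∫⁻ x, ENNReal.ofReal (gf am bm (T F₀ (fderiv ℝ ϑ x))) ∂μ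
          ≤ ∫⁻ x, ENNReal.ofReal (e⁻¹ * (max (wf h f (T F₀ (fderiv ℝ ϑ x))) 0 + K)) ∂μ := by
        refine lintegral_mono_ae ?_
        filter_upwards [hlow] with x hx
        refine ENNReal.ofReal_le_ofReal ?_
        have h1 := hK x
        rw [Real.norm_eq_abs, abs_le] at h1
        have h2 := le_max_left (wf h f (T F₀ (fderiv ℝ ϑ x))) 0
        have h3 : e * gf am bm (T F₀ (fderiv ℝ ϑ x))
            ≤ max (wf h f (T F₀ (fderiv ℝ ϑ x))) 0 + K := by linarith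
        have h4 := mul_le_mul_of_nonneg_left h3 (inv_nonneg.2 h0.le)
        rw [← mul_assoc, inv_mul_cancel₀ h0.ne', one_mul] at h4
        exact h4
      refine ne_of_lt (hle.trans_lt ?_)
      exact hd.lintegral_lt_top
    obtain ⟨m1, m2⟩ := magic hT hF hpos hfm
    refine ⟨m1.const_mul e, ?_⟩
    rw [integral_const_mul, mul_assoc]
    exact mul_le_mul_of_nonneg_left m2 h0.le
  set G : (Fin 2 → ℝ) → ℝ := fun x => Pf p1 p2 r C ‖(T F₀ (fderiv ℝ ϑ x)).1‖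
    ‖(T F₀ (fderiv ℝ ϑ x)).2‖ + e * gf am bm (T F₀ (fderiv ℝ ϑ x)) with hG
  have hGi : Integrable G μ := hPi.add hM.1
  have hWi : Integrable (fun x => wf h f (T F₀ (fderiv ℝ ϑ x))) μ := by
    refine Integrable.mono' (hWp.add hGi.abs) hm ?_
    filter_upwards [hlow] with x hx
    rw [Real.norm_eq_abs, Pi.add_apply]
    have hx' : G x ≤ wf h f (T F₀ (fderiv ℝ ϑ x)) := hx
    rcases le_total 0 (wf h f (T F₀ (fderiv ℝ ϑ x))) with h1 | h1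
    · rw [abs_of_nonneg h1]
      have := le_max_left (wf h f (T F₀ (fderiv ℝ ϑ x))) 0
      have := abs_nonneg (G x)
      linarith
    · rw [abs_of_nonpos h1]
      have := le_max_right (wf h f (T F₀ (fderiv ℝ ϑ x))) 0
      have := neg_abs_le (G x)
      linarith
  refine ⟨hWi, ?_⟩
  have h1 : ∫ x, G x ∂μ ≤ ∫ x, wf h f (T F₀ (fderiv ℝ ϑ x)) ∂μ := integral_mono_ae hGi hWi hlow
  have h2 : ∫ x, G x ∂μ = (∫ x, Pf p1 p2 r C ‖(T F₀ (fderiv ℝ ϑ x)).1‖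
      ‖(T F₀ (fderiv ℝ ϑ x)).2‖ ∂μ) + ∫ x, e * gf am bm (T F₀ (fderiv ℝ ϑ x)) ∂μ :=
    integral_add hPi hM.1
  rw [h2] at h1
  refine le_trans ?_ h1
  rw [wf_wr, ← q3, add_mul, ← gf_m]
  exact add_le_add hP hM.2

end Pool.Agent.Q62.PS
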