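import Pool.Agent.Q62.PS.Dis
import Pool.Agent.Y273.VI.Rc

/-! # Reduction of the volumetric-isochoric split to a logarithmic volumetric part -/

set_option autoImplicit false

namespace Pool.Agent.Q62.PS

open Set Filter Topology
open Pool.Agent.Y273.VI (RCp)

/-- the energy with the isochoric part `h` and the volumetric part `f` -/
noncomputable def wf (h f : ℝ → ℝ) (F : ℂ × ℂ) : ℝ :=
  h ((‖F.1‖ + ‖F.2‖) / (‖F.1‖ - ‖F.2‖)) + f (‖F.1‖ ^ 2 - ‖F.2‖ ^ 2)

/-- the energy as a function of the singular values -/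
noncomputable def gg (h f : ℝ → ℝ) (x y : ℝ) : ℝ := h (max x y / min x y) + f (x * y)

theorem gg_symm (h f : ℝ → ℝ) (x y : ℝ) : gg h f x y = gg h f y x := by
  unfold gg
  rw [max_comm, min_comm, mul_comm]

/-- the diagonal matrix -/
noncomputable def dg (x y : ℝ) : ℂ × ℂ := ((((x + y) / 2 : ℝ) : ℂ), (((x - y) / 2 : ℝ) : ℂ))

theorem dg_norm {x y : ℝ} (hx : 0 < x) (hy : 0 < y) :
    ‖(dg x y).1‖ = (x + y) / 2 ∧ ‖(dg x y).2‖ = |x - y| / 2 := by
  constructor
  · change ‖(((x + y) / 2 : ℝ) : ℂ)‖ = _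
    rw [Complex.norm_real, Real.norm_eq_abs, abs_of_pos (by positivity)]
  · change ‖(((x - y) / 2 : ℝ) : ℂ)‖ = _
    rw [Complex.norm_real, Real.norm_eq_abs, abs_div, abs_of_pos (by norm_num : (0 : ℝ) < 2)]

theorem dg_pos {x y : ℝ} (hx : 0 < x) (hy : 0 < y) : ‖(dg x y).2‖ < ‖(dg x y).1‖ := by
  obtain ⟨h1, h2⟩ := dg_norm hx hy
  rw [h1, h2]
  have : |x - y| < x + y := abs_lt.2 ⟨by linarith, by linarith⟩
  linarith

theorem wf_dg (h f : ℝ → ℝ) {x y : ℝ} (hx : 0 < x) (hy : 0 < y) :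
    wf h f (dg x y) = gg h f x y := by
  obtain ⟨h1, h2⟩ := dg_norm hx hy
  unfold wf gg
  rw [h1, h2]
  rcases le_total x y with h | h
  · rw [abs_of_nonpos (by linarith), max_eq_right h, min_eq_left h]
    congr 2
    · congr 1 <;> ring
    · ring
  · rw [abs_of_nonneg (by linarith), max_eq_left h, min_eq_right h]
    congr 2
    · congr 1 <;> ring
    · ring

theorem gg_conv {h f : ℝ → ℝ} (hR : RCp (wf h f)) {y : ℝ} (hy : 0 < y) :
    ConvexOn ℝ (Ioi 0) (fun x => gg h f x y) := by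
  refine ⟨convex_Ioi 0, fun x hx z hz a b ha hb hab => ?_⟩
  have hx' : 0 < x := hx
  have hz' : 0 < z := hz
  have hc : 0 < a • x + b • z := (convex_Ioi (0 : ℝ)) hx hz ha hb hab
  have e1 : dg x y + ((((z - x) / 2 : ℝ) : ℂ), (((z - x) / 2 : ℝ) : ℂ)) = dg z y := by
    unfold dg
    rw [Prod.mk_add_mk]
    congr 1 <;> (push_cast; ring)
  have e2 : dg x y + b • ((((z - x) / 2 : ℝ) : ℂ), (((z - x) / 2 : ℝ) : ℂ))
      = dg (a • x + b • z) y := by
    unfold dg
    rw [Prod.smul_mk, Prod.mk_add_mk]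
    simp only [Complex.real_smul, smul_eq_mul]
    have : a = 1 - b := by linarith
    rw [this]
    congr 1 <;> (push_cast; ring)
  have h1 := hR (dg x y) ((((z - x) / 2 : ℝ) : ℂ), (((z - x) / 2 : ℝ) : ℂ)) rfl
    (dg_pos hx' hy) (by rw [e1]; exact dg_pos hz' hy) b hb (by linarith)
  rw [e1, e2, wf_dg h f hx' hy, wf_dg h f hz' hy, wf_dg h f hc hy] at h1
  have : a = 1 - b := by linarith
  simp only [smul_eq_mul] at h1 ⊢
  rw [this] at h1 ⊢
  exact h1

/-! ### continuity of the volumetric part -/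

theorem conv_le_max {φ : ℝ → ℝ} (hφ : ConvexOn ℝ (Ioi 0) φ) {p q x M : ℝ} (hp : 0 < p)
    (hx : x ∈ Icc p q) (h1 : φ p ≤ M) (h2 : φ q ≤ M) : φ x ≤ M := by
  have hq : 0 < q := lt_of_lt_of_le hp (hx.1.trans hx.2)
  exact (hφ.le_max_of_mem_Icc (show p ∈ Ioi (0 : ℝ) from hp) (show q ∈ Ioi (0 : ℝ) from hq) hx).trans
    (max_le h1 h2)

theorem conv_mid {φ : ℝ → ℝ} (hφ : ConvexOn ℝ (Ioi 0) φ) {x t : ℝ} (h1 : 0 < x - t)
    (h2 : 0 < x + t) : 2 * φ x ≤ φ (x - t) + φ (x + t) := by
  have h := hφ.2 (show x - t ∈ Ioi (0 : ℝ) from h1) (show x + t ∈ Ioi (0 : ℝ) from h2)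
    (show (0 : ℝ) ≤ 1 / 2 by norm_num) (show (0 : ℝ) ≤ 1 / 2 by norm_num) (by norm_num)
  simp only [smul_eq_mul] at h
  have e : 1 / 2 * (x - t) + 1 / 2 * (x + t) = x := by ring
  rw [e] at h
  linarith

/-- a bound on a square -/
theorem gg_bd {h f : ℝ → ℝ} (hR : RCp (wf h f)) {x0 : ℝ} (hx0 : 0 < x0) :
    ∃ M : ℝ, ∀ x ∈ Icc (x0 / 2) (3 * x0 / 2), ∀ y ∈ Icc (x0 / 2) (3 * x0 / 2),
      |gg h f x y| ≤ M := by
  set p : ℝ := x0 / 2 with hp
  set q : ℝ := 3 * x0 / 2 with hq
  have hp0 : 0 < p := by positivity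
  have hq0 : 0 < q := by positivity
  have hpq : p ≤ q := by rw [hp, hq]; linarith
  set M1 : ℝ := max (max (gg h f p p) (gg h f p q)) (gg h f q q) with hM1
  have hpp : gg h f p p ≤ M1 := (le_max_left _ _).trans (le_max_left _ _)
  have hpq' : gg h f p q ≤ M1 := (le_max_right _ _).trans (le_max_left _ _)
  have hqp' : gg h f q p ≤ M1 := by rw [gg_symm]; exact hpq'
  have hqq : gg h f q q ≤ M1 := le_max_right _ _
  have up : ∀ x ∈ Icc p q, ∀ y ∈ Icc p q, gg h f x y ≤ M1 := by
    intro x hx y hy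
    have hy0 : 0 < y := hp0.trans_le hy.1
    have h1 : gg h f p y ≤ M1 := by
      rw [gg_symm]
      exact conv_le_max (gg_conv hR hp0) hp0 hy hpp hqp'
    have h2 : gg h f q y ≤ M1 := by
      rw [gg_symm]
      exact conv_le_max (gg_conv hR hq0) hp0 hy hpq' hqq
    exact conv_le_max (gg_conv hR hy0) hp0 hx h1 h2
  have hmem : ∀ x ∈ Icc p q, 2 * x0 - x ∈ Icc p q := by
    intro x hx
    rw [hp, hq] at hx ⊢
    exact ⟨by linarith [hx.2], by linarith [hx.1]⟩
  have low1 : ∀ x ∈ Icc p q, 2 * gg h f x0 x0 - M1 ≤ gg h f x x0 := by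
    intro x hx
    have hx' : 0 < x := hp0.trans_le hx.1
    have hxx := hmem x hx
    have h1 := conv_mid (gg_conv hR hx0) (x := x0) (t := x0 - x) (by linarith)
      (by linarith [hp0.trans_le hxx.1])
    have e1 : x0 - (x0 - x) = x := by ring
    have e2 : x0 + (x0 - x) = 2 * x0 - x := by ring
    simp only [e1, e2] at h1
    have h2 := up (2 * x0 - x) hxx x0 ⟨by rw [hp]; linarith, by rw [hq]; linarith⟩
    linarith
  have low : ∀ x ∈ Icc p q, ∀ y ∈ Icc p q, 2 * (2 * gg h f x0 x0 - M1) - M1 ≤ gg h f x y := by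
    intro x hx y hy
    have hx' : 0 < x := hp0.trans_le hx.1
    have hyy := hmem y hy
    have hy' : 0 < y := hp0.trans_le hy.1
    have h1 := conv_mid (gg_conv hR hx') (x := x0) (t := x0 - y) (by linarith)
      (by linarith [hp0.trans_le hyy.1])
    have e1 : x0 - (x0 - y) = y := by ring
    have e2 : x0 + (x0 - y) = 2 * x0 - y := by ring
    simp only [e1, e2] at h1
    rw [gg_symm h f x0 x, gg_symm h f y x, gg_symm h f (2 * x0 - y) x] at h1
    have h2 := up x hx (2 * x0 - y) hyy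
    have h3 := low1 x hx
    linarith
  refine ⟨max M1 (-(2 * (2 * gg h f x0 x0 - M1) - M1)), fun x hx y hy => abs_le.2 ⟨?_, ?_⟩⟩
  · have := low x hx y hy
    have := le_max_right M1 (-(2 * (2 * gg h f x0 x0 - M1) - M1))
    linarith
  · exact (up x hx y hy).trans (le_max_left _ _)

theorem chord {φ : ℝ → ℝ} {S : Set ℝ} (hφ : ConvexOn ℝ S φ) {a b c : ℝ} (ha : a ∈ S) (hc : c ∈ S)
    (h1 : a ≤ b) (h2 : b ≤ c) : φ b * (c - a) ≤ φ a * (c - b) + φ c * (b - a) := by
  rcases eq_or_lt_of_le (h1.trans h2) with h | h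
  · have e1 : a = b := le_antisymm h1 (h ▸ h2)
    have e2 : b = c := by rw [← e1, h]
    subst e1
    subst e2
    simp
  have hd : 0 < c - a := by linarith
  have h3 := hφ.2 ha hc (show 0 ≤ (c - b) / (c - a) from div_nonneg (by linarith) hd.le)
    (show 0 ≤ (b - a) / (c - a) from div_nonneg (by linarith) hd.le) (by field_simp; ring)
  simp only [smul_eq_mul] at h3
  have e : (c - b) / (c - a) * a + (b - a) / (c - a) * c = b := by
    field_simp
    ring
  rw [e] at h3
  have h4 := mul_le_mul_of_nonneg_right h3 hd.le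
  refine h4.trans (le_of_eq ?_)
  field_simp

theorem conv_lip {φ : ℝ → ℝ} (hφ : ConvexOn ℝ (Ioi 0) φ) {x0 x η M : ℝ} (hη : 0 < η)
    (h0 : 0 < x0 - η) (hx : |x - x0| ≤ η) (hM : ∀ y ∈ Icc (x0 - η) (x0 + η), |φ y| ≤ M) :
    η * |φ x - φ x0| ≤ 2 * M * |x - x0| := by
  have m1 : x0 - η ∈ Ioi (0 : ℝ) := h0
  have m2 : x0 + η ∈ Ioi (0 : ℝ) := mem_Ioi.2 (by linarith)
  have b1 := abs_le.1 (hM (x0 - η) ⟨le_rfl, by linarith⟩)
  have b2 := abs_le.1 (hM (x0 + η) ⟨by linarith, le_rfl⟩)
  have b0 := abs_le.1 (hM x0 ⟨by linarith, by linarith⟩)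
  have hx' := abs_le.1 hx
  rcases le_total x0 x with h | h
  · have mx : x ∈ Ioi (0 : ℝ) := mem_Ioi.2 (by linarith)
    have c1 := chord hφ (a := x0) (b := x) (c := x0 + η) (mem_Ioi.2 (by linarith)) m2 h
      (by linarith)
    have c2 := chord hφ (a := x0 - η) (b := x0) (c := x) m1 mx (by linarith) h
    rw [abs_of_nonneg (by linarith : 0 ≤ x - x0)]
    have hd : 0 ≤ x - x0 := by linarith
    have e : η * |φ x - φ x0| = |η * (φ x - φ x0)| := by rw [abs_mul, abs_of_pos hη]
    rw [e]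
    refine abs_le.2 ⟨?_, ?_⟩
    · nlinarith
    · nlinarith
  · have mx : x ∈ Ioi (0 : ℝ) := mem_Ioi.2 (by linarith)
    have c1 := chord hφ (a := x0 - η) (b := x) (c := x0) m1 (mem_Ioi.2 (by linarith))
      (by linarith) h
    have c2 := chord hφ (a := x) (b := x0) (c := x0 + η) mx m2 h (by linarith)
    rw [abs_of_nonpos (by linarith : x - x0 ≤ 0)]
    have hd : 0 ≤ x0 - x := by linarith
    have e : η * |φ x - φ x0| = |η * (φ x - φ x0)| := by rw [abs_mul, abs_of_pos hη]
    rw [e]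
    refine abs_le.2 ⟨?_, ?_⟩
    · nlinarith
    · nlinarith

theorem f_cont {h f : ℝ → ℝ} (hR : RCp (wf h f)) : ContinuousOn f (Ioi 0) := by
  -- continuity on the diagonal
  have hdiag : ∀ x0 : ℝ, 0 < x0 → ContinuousAt (fun x => gg h f x x) x0 := by
    intro x0 hx0
    obtain ⟨M, hM⟩ := gg_bd hR hx0
    have hc1 : ContinuousAt (fun x => gg h f x x0) x0 :=
      ((gg_conv hR hx0).continuousOn isOpen_Ioi).continuousAt (Ioi_mem_nhds hx0)
    have key : ∀ᶠ x in 𝓝 x0, |gg h f x x - gg h f x x0| ≤ 8 * M / x0 * |x - x0| := by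
      filter_upwards [Icc_mem_nhds (show x0 * (3 / 4) < x0 by linarith)
        (show x0 < x0 * (5 / 4) by linarith)] with x hx
      have hx1 : 0 < x := lt_of_lt_of_le (by positivity) hx.1
      have hxI : x ∈ Icc (x0 / 2) (3 * x0 / 2) := ⟨by linarith [hx.1], by linarith [hx.2]⟩
      have hL := conv_lip (gg_conv hR hx1) (x0 := x0) (x := x) (η := x0 / 4) (M := M)
        (by positivity) (by linarith) (abs_le.2 ⟨by linarith [hx.1], by linarith [hx.2]⟩) (by
        intro y hy
        exact hM y ⟨by linarith [hy.1], by linarith [hy.2]⟩ x hxI)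
      rw [gg_symm h f x x0]
      rw [div_mul_eq_mul_div, le_div_iff₀ hx0]
      nlinarith
    have key2 : Tendsto (fun x => gg h f x x - gg h f x x0) (𝓝 x0) (𝓝 0) := by
      have hz : Tendsto (fun x : ℝ => 8 * M / x0 * |x - x0|) (𝓝 x0) (𝓝 0) := by
        have : ContinuousAt (fun x : ℝ => 8 * M / x0 * |x - x0|) x0 := by fun_prop
        have h1 := this.tendsto
        simpa using h1
      exact squeeze_zero_norm' (by simpa [Real.norm_eq_abs] using key) hz
    have key3 := key2.add hc1.tendsto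
    simp only [sub_add_cancel, zero_add] at key3
    exact key3
  intro d hd
  have hd' : 0 < d := hd
  have hs : 0 < Real.sqrt d := Real.sqrt_pos.2 hd'
  have h1 : ContinuousAt (fun d => gg h f (Real.sqrt d) (Real.sqrt d)) d :=
    ContinuousAt.comp (f := Real.sqrt) (g := fun x => gg h f x x) (hdiag _ hs)
      Real.continuous_sqrt.continuousAt
  have h2 : ContinuousAt (fun d => gg h f (Real.sqrt d) (Real.sqrt d) - h 1) d :=
    h1.sub continuousAt_const
  refine (h2.congr ?_).continuousWithinAt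
  filter_upwards [Ioi_mem_nhds hd'] with y hy
  have hy' : 0 < Real.sqrt y := Real.sqrt_pos.2 hy
  unfold gg
  rw [max_self, min_self, div_self hy'.ne', Real.mul_self_sqrt (le_of_lt hy)]
  ring

/-! ### rank-one lines -/

/-- the determinant -/
noncomputable def dd (F : ℂ × ℂ) : ℝ := ‖F.1‖ ^ 2 - ‖F.2‖ ^ 2

/-- the ratio of the singular values -/
noncomputable def tt (F : ℂ × ℂ) : ℝ := (‖F.1‖ + ‖F.2‖) / (‖F.1‖ - ‖F.2‖)

theorem wf_eq (h f : ℝ → ℝ) (F : ℂ × ℂ) : wf h f F = h (tt F) + f (dd F) := rfl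

theorem dd_pos {F : ℂ × ℂ} : 0 < dd F ↔ ‖F.2‖ < ‖F.1‖ := by
  unfold dd
  rw [sub_pos, sq_lt_sq₀ (norm_nonneg _) (norm_nonneg _)]

theorem dd_line (F H : ℂ × ℂ) (h : ‖H.1‖ = ‖H.2‖) (t : ℝ) :
    dd (F + t • H) = dd F + t * (dd (F + H) - dd F) := by
  have := Pool.Agent.Y273.VI.det_line F H h t
  simp only [Pool.Agent.Y273.VI.det_bac] at this
  unfold dd
  rw [this]
  ring

theorem dd_smul (l : ℝ) (F : ℂ × ℂ) : dd (l • F) = l ^ 2 * dd F := by
  unfold dd
  rw [Prod.smul_fst, Prod.smul_snd, norm_smul, norm_smul, Real.norm_eq_abs, mul_pow, mul_pow,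
    sq_abs]
  ring

theorem tt_smul {l : ℝ} (hl : 0 < l) (F : ℂ × ℂ) : tt (l • F) = tt F := by
  unfold tt
  rw [Prod.smul_fst, Prod.smul_snd, norm_smul, norm_smul, Real.norm_eq_abs, abs_of_pos hl,
    ← mul_add, ← mul_sub, mul_div_mul_left _ _ hl.ne']

/-- convexity along scaled rank-one lines -/
theorem line_conv {w : ℂ × ℂ → ℝ} (hR : RCp w) {F H : ℂ × ℂ} (hH : ‖H.1‖ = ‖H.2‖) {l : ℝ}
    (hl : 0 < l) {J : Set ℝ} (hJ : Convex ℝ J) (hJd : ∀ x ∈ J, 0 < dd (F + x • H)) :
    ConvexOn ℝ J (fun x => w (l • (F + x • H))) := by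
  refine ⟨hJ, fun x hx y hy a b ha hb hab => ?_⟩
  have hpos : ∀ x ∈ J, ‖(l • (F + x • H)).2‖ < ‖(l • (F + x • H)).1‖ := by
    intro x hx
    rw [← dd_pos, dd_smul]
    have := hJd x hx
    positivity
  have e1 : l • (F + x • H) + (l * (y - x)) • H = l • (F + y • H) := by
    rw [smul_add, smul_add, add_assoc, smul_smul, smul_smul, ← add_smul]
    congr 2
    ring
  have e2 : l • (F + x • H) + b • (l * (y - x)) • H = l • (F + (a • x + b • y) • H) := by
    rw [smul_add, smul_add, add_assoc, smul_smul, smul_smul, smul_smul, ← add_smul]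
    congr 2
    have : a = 1 - b := by linarith
    rw [this]
    simp only [smul_eq_mul]
    ring
  have h1 := hR (l • (F + x • H)) ((l * (y - x)) • H) (by
    rw [Prod.smul_fst, Prod.smul_snd, norm_smul, norm_smul, hH]) (hpos x hx)
    (by rw [e1]; exact hpos y hy) b hb (by linarith)
  rw [e1, e2] at h1
  have : a = 1 - b := by linarith
  rw [this] at h1 ⊢
  simp only [smul_eq_mul] at h1 ⊢
  exact h1

theorem rc_of_not {h f : ℝ → ℝ} (hR : RCp (wf h f)) {c : ℝ}
    (hc : ¬ ConvexOn ℝ (Ioi 0) (fun r => f r + c * Real.log r)) :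
    RCp (wf h (fun d => -(c * Real.log d))) := by
  intro F H hH hF hFH t ht0 ht1
  have hfc := f_cont hR
  obtain ⟨r, hr0, hr⟩ := exists_pt hfc hc
  set d1 : ℝ := dd (F + H) - dd F with hd1
  have hdl : ∀ x : ℝ, dd (F + x • H) = dd F + x * d1 := fun x => dd_line F H hH x
  set J : Set ℝ := {x | 0 < dd F + x * d1} with hJ
  have hJo : IsOpen J := isOpen_lt continuous_const (by fun_prop)
  have hJc : Convex ℝ J := by
    intro x hx y hy a b ha hb hab
    have hx' : 0 < dd F + x * d1 := hx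
    have hy' : 0 < dd F + y * d1 := hy
    change 0 < dd F + (a * x + b * y) * d1
    have e : dd F + (a * x + b * y) * d1 = a * (dd F + x * d1) + b * (dd F + y * d1) := by
      have : a = 1 - b := by linarith
      rw [this]; ring
    rw [e]
    rcases eq_or_lt_of_le ha with h1 | h1
    · rw [← h1] at hab ⊢
      have : b = 1 := by linarith
      rw [this]
      linarith
    · have := mul_pos h1 hx'
      have := mul_nonneg hb hy'.le
      linarith
  have hJd : ∀ x ∈ J, 0 < dd (F + x • H) := fun x hx => by rw [hdl]; exact hx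
  have hlc : ∀ l : ℝ, 0 < l → ConvexOn ℝ J (fun x => wf h f (l • (F + x • H))) := fun l hl =>
    line_conv hR hH hl hJc hJd
  have hwe : ∀ l : ℝ, 0 < l → ∀ x : ℝ, wf h f (l • (F + x • H))
      = h (tt (F + x • H)) + f (l ^ 2 * (dd F + x * d1)) := by
    intro l hl x
    rw [wf_eq, tt_smul hl, dd_smul, hdl]
  -- continuity of the isochoric part
  have htc : ContinuousOn (fun x => h (tt (F + x • H))) J := by
    have h1 := (hlc 1 one_pos).continuousOn hJo
    have h2 : ContinuousOn (fun x => f (dd F + x * d1)) J := by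
      refine hfc.comp (f := fun x => dd F + x * d1) (by fun_prop) fun x hx => ?_
      exact hx
    refine (h1.sub h2).congr fun x hx => ?_
    have e := hwe 1 one_pos x
    rw [one_pow, one_mul] at e
    simp only [Pi.sub_apply]
    linarith
  have hlogc : ContinuousOn (fun x => Real.log (dd F + x * d1)) J := by
    refine Real.continuousOn_log.comp (f := fun x => dd F + x * d1) (by fun_prop) fun x hx => ?_
    exact ne_of_gt hx
  set u : ℝ → ℝ := fun x => h (tt (F + x • H)) + -(c * Real.log (dd F + x * d1)) with hu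
  have huc : ContinuousOn u J := htc.add (continuousOn_const.mul hlogc).neg
  have hconv : ConvexOn ℝ J u := by
    refine conv_of_freq hJc huc fun x hx => Eventually.frequently ?_
    have hx' : 0 < dd F + x * d1 := hx
    set D : ℝ := dd F + x * d1 with hD
    set l : ℝ := Real.sqrt (r / D) with hl
    have hl0 : 0 < l := Real.sqrt_pos.2 (div_pos hr0 hx')
    have hl2 : l ^ 2 = r / D := Real.sq_sqrt (div_pos hr0 hx').le
    have hl2D : l ^ 2 * D = r := by rw [hl2]; field_simp
    -- small steps stay in `J`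
    have hJx : ∀ᶠ δ in 𝓝[>] (0 : ℝ), x + δ ∈ J ∧ x - δ ∈ J := by
      have c1 : Tendsto (fun δ : ℝ => x + δ) (𝓝[>] 0) (𝓝 x) := by
        have : Tendsto (fun δ : ℝ => x + δ) (𝓝 0) (𝓝 (x + 0)) :=
          Continuous.tendsto (by fun_prop) 0
        rw [add_zero] at this
        exact this.mono_left nhdsWithin_le_nhds
      have c2 : Tendsto (fun δ : ℝ => x - δ) (𝓝[>] 0) (𝓝 x) := by
        have : Tendsto (fun δ : ℝ => x - δ) (𝓝 0) (𝓝 (x - 0)) :=
          Continuous.tendsto (by fun_prop) 0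
        rw [sub_zero] at this
        exact this.mono_left nhdsWithin_le_nhds
      exact (c1.eventually (hJo.mem_nhds hx)).and (c2.eventually (hJo.mem_nhds hx))
    -- the inequality for the original energy
    have hmid : ∀ δ : ℝ, x + δ ∈ J → x - δ ∈ J →
        2 * (h (tt (F + x • H)) + f r) ≤ (h (tt (F + (x + δ) • H)) + f (r + δ * (l ^ 2 * d1)))
          + (h (tt (F + (x - δ) • H)) + f (r - δ * (l ^ 2 * d1))) := by
      intro δ h1 h2
      have h3 := (hlc l hl0).2 h1 h2 (show (0 : ℝ) ≤ 1 / 2 by norm_num)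
        (show (0 : ℝ) ≤ 1 / 2 by norm_num) (by norm_num)
      simp only [smul_eq_mul] at h3
      rw [show 1 / 2 * (x + δ) + 1 / 2 * (x - δ) = x by ring, hwe l hl0, hwe l hl0, hwe l hl0,
        ← hD, hl2D] at h3
      have e1 : l ^ 2 * (dd F + (x + δ) * d1) = r + δ * (l ^ 2 * d1) := by
        rw [← hl2D, hD]; ring
      have e2 : l ^ 2 * (dd F + (x - δ) * d1) = r - δ * (l ^ 2 * d1) := by
        rw [← hl2D, hD]; ring
      rw [e1, e2] at h3
      linarith
    have hlog : ∀ δ : ℝ, x + δ ∈ J → x - δ ∈ J →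
        Real.log (r + δ * (l ^ 2 * d1)) = Real.log (dd F + (x + δ) * d1) + Real.log (l ^ 2) ∧
        Real.log (r - δ * (l ^ 2 * d1)) = Real.log (dd F + (x - δ) * d1) + Real.log (l ^ 2) ∧
        Real.log r = Real.log D + Real.log (l ^ 2) := by
      intro δ h1 h2
      have e1 : r + δ * (l ^ 2 * d1) = (dd F + (x + δ) * d1) * l ^ 2 := by
        rw [← hl2D, hD]; ring
      have e2 : r - δ * (l ^ 2 * d1) = (dd F + (x - δ) * d1) * l ^ 2 := by
        rw [← hl2D, hD]; ring
      have h1' : 0 < dd F + (x + δ) * d1 := h1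
      have h2' : 0 < dd F + (x - δ) * d1 := h2
      refine ⟨?_, ?_, ?_⟩
      · rw [e1, Real.log_mul h1'.ne' (by positivity)]
      · rw [e2, Real.log_mul h2'.ne' (by positivity)]
      · rw [← hl2D, mul_comm, Real.log_mul hx'.ne' (by positivity)]
    rcases eq_or_ne d1 0 with h0 | h0
    · filter_upwards [hJx] with δ hδ
      have h1 := hmid δ hδ.1 hδ.2
      rw [h0] at h1
      simp only [mul_zero, add_zero, sub_zero] at h1
      simp only [hu, h0, mul_zero, add_zero]
      linarith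
    · set κ : ℝ := l ^ 2 * |d1| with hκ
      have hκ0 : 0 < κ := by
        have := abs_pos.2 h0
        positivity
      have hst : Tendsto (fun δ : ℝ => κ * δ) (𝓝[>] 0) (𝓝[>] 0) := by
        refine tendsto_nhdsWithin_iff.2 ⟨?_, ?_⟩
        · have : Tendsto (fun δ : ℝ => κ * δ) (𝓝 0) (𝓝 (κ * 0)) :=
            Continuous.tendsto (by fun_prop) 0
          rw [mul_zero] at this
          exact this.mono_left nhdsWithin_le_nhds
        · filter_upwards [self_mem_nhdsWithin] with δ hδ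
          have : (0 : ℝ) < δ := hδ
          exact mem_Ioi.2 (by positivity)
      filter_upwards [hJx, hst.eventually hr] with δ hδ h3
      have h1 := hmid δ hδ.1 hδ.2
      obtain ⟨g1, g2, g3⟩ := hlog δ hδ.1 hδ.2
      have h4 : (f (r + δ * (l ^ 2 * d1)) + c * Real.log (r + δ * (l ^ 2 * d1)))
          + (f (r - δ * (l ^ 2 * d1)) + c * Real.log (r - δ * (l ^ 2 * d1)))
            < 2 * (f r + c * Real.log r) := by
        rcases le_total 0 d1 with h5 | h5
        · rw [hκ, abs_of_nonneg h5, mul_comm (l ^ 2 * d1) δ] at h3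
          exact h3
        · rw [hκ, abs_of_nonpos h5] at h3
          have e1 : r + l ^ 2 * -d1 * δ = r - δ * (l ^ 2 * d1) := by ring
          have e2 : r - l ^ 2 * -d1 * δ = r + δ * (l ^ 2 * d1) := by ring
          rw [e1, e2] at h3
          linarith
      rw [g1, g2, g3] at h4
      simp only [hu]
      rw [← hD]
      linarith
  have m0 : (0 : ℝ) ∈ J := by
    change 0 < dd F + 0 * d1
    rw [zero_mul, add_zero]
    exact dd_pos.2 hF
  have m1 : (1 : ℝ) ∈ J := by
    change 0 < dd F + 1 * d1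
    rw [hd1]
    have := dd_pos.2 hFH
    linarith
  have h5 := hconv.2 m0 m1 (show 0 ≤ 1 - t by linarith) ht0 (by ring)
  simp only [smul_eq_mul, mul_zero, mul_one, zero_add, hu] at h5
  have e0 : F + (0 : ℝ) • H = F := by simp
  have e1 : F + (1 : ℝ) • H = F + H := by simp
  rw [e0, e1] at h5
  rw [wf_eq, wf_eq, wf_eq, hdl, show dd (F + H) = dd F + 1 * d1 by rw [hd1]; ring]
  simpa using h5

theorem add_log {f : ℝ → ℝ} {c c' : ℝ} (hc : c' ≤ c)
    (h : ConvexOn ℝ (Ioi 0) (fun r => f r + c * Real.log r)) :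
    ConvexOn ℝ (Ioi 0) (fun r => f r + c' * Real.log r) := by
  have h1 : ConvexOn ℝ (Ioi 0) (fun r : ℝ => (c - c') • (-Real.log r)) :=
    (strictConcaveOn_log_Ioi.concaveOn.neg).smul (by linarith)
  refine (h.add h1).congr fun r _ => ?_
  simp only [Pi.add_apply, smul_eq_mul]
  ring

theorem affine_le {A B κ : ℝ} (h : ∀ c < κ, A + c * B ≤ 0) : A + κ * B ≤ 0 := by
  have h1 : Tendsto (fun c : ℝ => A + c * B) (𝓝[<] κ) (𝓝 (A + κ * B)) :=
    (Continuous.tendsto (by fun_prop) κ).mono_left nhdsWithin_le_nhds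
  exact le_of_tendsto h1 (by filter_upwards [self_mem_nhdsWithin] with c hc using h c hc)

theorem affine_le' {A B κ : ℝ} (h : ∀ c > κ, A + c * B ≤ 0) : A + κ * B ≤ 0 := by
  have h1 : Tendsto (fun c : ℝ => A + c * B) (𝓝[>] κ) (𝓝 (A + κ * B)) :=
    (Continuous.tendsto (by fun_prop) κ).mono_left nhdsWithin_le_nhds
  exact le_of_tendsto h1 (by filter_upwards [self_mem_nhdsWithin] with c hc using h c hc)

theorem exists_split {h f : ℝ → ℝ} (hR : RCp (wf h f)) : ∃ c : ℝ,
    RCp (wf h (fun d => -(c * Real.log d))) ∧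
    ConvexOn ℝ (Ioi 0) (fun r => f r + c * Real.log r) ∧ (ConvexOn ℝ (Ioi 0) f → 0 ≤ c) := by
  set S : Set ℝ := {c | ConvexOn ℝ (Ioi 0) (fun r => f r + c * Real.log r)} with hS
  have hg := log_gap
  have hbd : BddAbove S := by
    refine ⟨((f 1 + f 3) / 2 - f 2) / (Real.log 2 - Real.log 3 / 2), fun c hc => ?_⟩
    rw [le_div_iff₀ hg]
    exact three_pt hc
  have hne : S.Nonempty := by
    by_contra hcon
    rw [Set.not_nonempty_iff_eq_empty] at hcon
    have hall : ∀ c : ℝ, RCp (wf h (fun d => -(c * Real.log d))) := by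
      intro c
      refine rc_of_not hR fun hc => ?_
      have : c ∈ S := hc
      rw [hcon] at this
      exact this
    have h2 : ∀ c : ℝ, -c * (Real.log 2 - Real.log 3 / 2) ≤ (h 1 + h 3) / 2 - h 2 := by
      intro c
      have h3 := gg_conv (hall c) (y := 1) one_pos
      have h4 : ConvexOn ℝ (Ioi 0) (fun r => h (max r 1 / min r 1) + -c * Real.log r) := by
        refine h3.congr fun r _ => ?_
        unfold gg
        simp only [mul_one]
        ring
      have h5 := three_pt h4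
      norm_num at h5
      linarith
    have h3 := h2 (-(((h 1 + h 3) / 2 - h 2 + 1) / (Real.log 2 - Real.log 3 / 2)))
    rw [neg_neg, div_mul_cancel₀ _ hg.ne'] at h3
    linarith
  set κ : ℝ := sSup S with hκ
  have hlt : ∀ c < κ, c ∈ S := by
    intro c hc
    obtain ⟨c', hc', hcc⟩ := exists_lt_of_lt_csSup hne hc
    exact add_log hcc.le hc'
  have hgt : ∀ c > κ, RCp (wf h (fun d => -(c * Real.log d))) := by
    intro c hc
    refine rc_of_not hR fun h1 => ?_
    exact absurd (le_csSup hbd (show c ∈ S from h1)) (not_le.2 hc)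
  refine ⟨κ, ?_, ?_, ?_⟩
  · intro F H hH hF hFH t ht0 ht1
    have h1 : ∀ c > κ, (h (tt (F + t • H)) - (1 - t) * h (tt F) - t * h (tt (F + H)))
        + c * (-Real.log (dd (F + t • H)) + (1 - t) * Real.log (dd F)
          + t * Real.log (dd (F + H))) ≤ 0 := by
      intro c hc
      have h2 := hgt c hc F H hH hF hFH t ht0 ht1
      simp only [wf_eq] at h2
      linarith
    have h3 := affine_le' h1
    simp only [wf_eq]
    linarith
  · refine ⟨convex_Ioi 0, fun x hx y hy a b ha hb hab => ?_⟩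
    have h1 : ∀ c < κ, (f (a • x + b • y) - a * f x - b * f y)
        + c * (Real.log (a • x + b • y) - a * Real.log x - b * Real.log y) ≤ 0 := by
      intro c hc
      have h2 := (hlt c hc).2 hx hy ha hb hab
      simp only [smul_eq_mul] at h2 ⊢
      linarith
    have h3 := affine_le h1
    simp only [smul_eq_mul] at h3 ⊢
    linarith
  · intro h0
    refine le_csSup hbd ?_
    change ConvexOn ℝ (Ioi 0) (fun r => f r + 0 * Real.log r)
    simpa using h0

end Pool.Agent.Q62.PS
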