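import Pool.Agent.Q62.PS.Red

/-! # Support functions for the logarithmic volumetric part -/

set_option autoImplicit false

namespace Pool.Agent.Q62.PS

open Set Filter Topology
open Pool.Agent.Y273.VI (RCp deriv_nonneg')

/-- the energy as a function of the two norms -/
noncomputable def wr (h f : ℝ → ℝ) (X Y : ℝ) : ℝ := h ((X + Y) / (X - Y)) + f (X ^ 2 - Y ^ 2)

theorem wf_wr (h f : ℝ → ℝ) (F : ℂ × ℂ) : wf h f F = wr h f ‖F.1‖ ‖F.2‖ := rfl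

theorem wf_of {h f : ℝ → ℝ} {F : ℂ × ℂ} {X Y : ℝ} (h1 : ‖F.1‖ = X) (h2 : ‖F.2‖ = Y) :
    wf h f F = wr h f X Y := by
  rw [wf_wr, h1, h2]

/-- the logarithmic volumetric part -/
noncomputable def lg (c : ℝ) : ℝ → ℝ := fun d => -(c * Real.log d)

theorem lg_eq {c X Y : ℝ} (hY : 0 ≤ Y) (h : Y < X) :
    lg c (X ^ 2 - Y ^ 2) = -(c * Real.log ((X + Y) / (X - Y))) - 2 * c * Real.log (X - Y) := by
  have h1 : 0 < X + Y := by linarith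
  have h2 : 0 < X - Y := by linarith
  unfold lg
  rw [show X ^ 2 - Y ^ 2 = (X + Y) * (X - Y) by ring, Real.log_mul h1.ne' h2.ne',
    Real.log_div h1.ne' h2.ne']
  ring

theorem t_ge {X Y : ℝ} (hY : 0 ≤ Y) (h : Y < X) : 1 ≤ (X + Y) / (X - Y) := by
  rw [le_div_iff₀ (by linarith)]
  linarith

/-- the Baker-Ericksen inequality -/
theorem be {h : ℝ → ℝ} {f : ℝ → ℝ} (hR : RCp (wf h f)) {t0 t1 : ℝ} (h0 : 1 ≤ t0)
    (h1 : t0 ≤ t1) : h t0 ≤ h t1 := by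
  have ht1 : 1 ≤ t1 := h0.trans h1
  have p0 : 0 < t0 := by linarith
  have p1 : 0 < t1 := by linarith
  set s1 : ℝ := Real.sqrt (t0 * t1) with hs1
  have hs1p : 0 < s1 := Real.sqrt_pos.2 (by positivity)
  have hs1q : s1 ^ 2 = t0 * t1 := Real.sq_sqrt (by positivity)
  set v1 : ℝ := t0 / s1 with hv1
  have hv1p : 0 < v1 := by positivity
  have hsv : s1 * v1 = t0 := by rw [hv1]; field_simp
  have hv1q : v1 ^ 2 = t0 / t1 := by
    rw [hv1, div_pow, hs1q]; field_simp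
  set ξ : ℝ := Real.sqrt (((s1 + v1) / 2) ^ 2 - ((t0 + 1) / 2) ^ 2) with hξ
  have hnn : 0 ≤ ((s1 + v1) / 2) ^ 2 - ((t0 + 1) / 2) ^ 2 := by
    have e : ((s1 + v1) / 2) ^ 2 - ((t0 + 1) / 2) ^ 2 = (s1 ^ 2 + v1 ^ 2 + 2 * (s1 * v1)
      - (t0 + 1) ^ 2) / 4 := by ring
    rw [e, hsv, hs1q, hv1q]
    have : 0 ≤ t0 * t1 + t0 / t1 - t0 ^ 2 - 1 := by
      have e2 : t0 * t1 + t0 / t1 - t0 ^ 2 - 1 = (t0 * t1 - 1) * (t1 - t0) / t1 := by
        field_simp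
        ring
      rw [e2]
      have : 0 ≤ t0 * t1 - 1 := by nlinarith
      have : 0 ≤ t1 - t0 := by linarith
      positivity
    linarith
  have hξ2 : ξ ^ 2 = ((s1 + v1) / 2) ^ 2 - ((t0 + 1) / 2) ^ 2 := Real.sq_sqrt hnn
  have hle : v1 ≤ s1 := by
    have : v1 ^ 2 ≤ s1 ^ 2 := by
      rw [hv1q, hs1q, div_le_iff₀ p1]
      nlinarith [mul_le_mul ht1 ht1 (by norm_num) (by linarith)]
    exact le_of_sq_le_sq this hs1p.le
  have n1 : ∀ η : ℝ, η ^ 2 = ξ ^ 2 → ‖((((t0 + 1) / 2 : ℝ) : ℂ) + (η : ℂ) * Complex.I)‖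
      = (s1 + v1) / 2 := by
    intro η hη
    rw [Complex.norm_add_mul_I, hη, hξ2, add_sub_cancel, Real.sqrt_sq (by positivity)]
  have n2 : ∀ η : ℝ, η ^ 2 = ξ ^ 2 → ‖((((t0 - 1) / 2 : ℝ) : ℂ) + (η : ℂ) * Complex.I)‖
      = (s1 - v1) / 2 := by
    intro η hη
    rw [Complex.norm_add_mul_I, hη, hξ2]
    have e : ((t0 - 1) / 2) ^ 2 + (((s1 + v1) / 2) ^ 2 - ((t0 + 1) / 2) ^ 2)
      = ((s1 - v1) / 2) ^ 2 := by
      have : ((s1 + v1) / 2) ^ 2 = ((s1 - v1) / 2) ^ 2 + s1 * v1 := by ring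
      rw [this, hsv]
      ring
    rw [e, Real.sqrt_sq (by linarith)]
  set F : ℂ × ℂ := ((((t0 + 1) / 2 : ℝ) : ℂ) + ((-ξ : ℝ) : ℂ) * Complex.I,
    (((t0 - 1) / 2 : ℝ) : ℂ) + ((-ξ : ℝ) : ℂ) * Complex.I) with hF
  set H : ℂ × ℂ := (((2 * ξ : ℝ) : ℂ) * Complex.I, ((2 * ξ : ℝ) : ℂ) * Complex.I) with hH
  have e1 : F + H = ((((t0 + 1) / 2 : ℝ) : ℂ) + (ξ : ℂ) * Complex.I,
      (((t0 - 1) / 2 : ℝ) : ℂ) + (ξ : ℂ) * Complex.I) := by
    rw [hF, hH, Prod.mk_add_mk]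
    congr 1 <;> (push_cast; ring)
  have e2 : F + (1 / 2 : ℝ) • H = ((((t0 + 1) / 2 : ℝ) : ℂ), (((t0 - 1) / 2 : ℝ) : ℂ)) := by
    rw [hF, hH, Prod.smul_mk, Prod.mk_add_mk]
    simp only [Complex.real_smul]
    congr 1 <;> (push_cast; ring)
  have a1 : ‖F.1‖ = (s1 + v1) / 2 := n1 (-ξ) (by ring)
  have a2 : ‖F.2‖ = (s1 - v1) / 2 := n2 (-ξ) (by ring)
  have b1 : ‖(F + H).1‖ = (s1 + v1) / 2 := by rw [e1]; exact n1 ξ rfl
  have b2 : ‖(F + H).2‖ = (s1 - v1) / 2 := by rw [e1]; exact n2 ξ rfl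
  have c1 : ‖(F + (1 / 2 : ℝ) • H).1‖ = (t0 + 1) / 2 := by
    rw [e2]
    change ‖(((t0 + 1) / 2 : ℝ) : ℂ)‖ = _
    rw [Complex.norm_real, Real.norm_of_nonneg (by positivity)]
  have c2 : ‖(F + (1 / 2 : ℝ) • H).2‖ = (t0 - 1) / 2 := by
    rw [e2]
    change ‖(((t0 - 1) / 2 : ℝ) : ℂ)‖ = _
    rw [Complex.norm_real, Real.norm_of_nonneg (by linarith)]
  have h2 := hR F H rfl (by rw [a1, a2]; linarith) (by rw [b1, b2]; linarith) (1 / 2)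
    (by norm_num) (by norm_num)
  rw [wf_of a1 a2, wf_of b1 b2, wf_of c1 c2] at h2
  unfold wr at h2
  have r1 : ((s1 + v1) / 2 + (s1 - v1) / 2) / ((s1 + v1) / 2 - (s1 - v1) / 2) = t1 := by
    have : ((s1 + v1) / 2 + (s1 - v1) / 2) / ((s1 + v1) / 2 - (s1 - v1) / 2) = s1 / v1 := by
      congr 1 <;> ring
    rw [this, hv1, div_div_eq_mul_div, ← pow_two, hs1q]
    field_simp
  have r2 : ((t0 + 1) / 2 + (t0 - 1) / 2) / ((t0 + 1) / 2 - (t0 - 1) / 2) = t0 := by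
    have : ((t0 + 1) / 2 + (t0 - 1) / 2) / ((t0 + 1) / 2 - (t0 - 1) / 2) = t0 / 1 := by
      congr 1 <;> ring
    rw [this, div_one]
  have r3 : ((s1 + v1) / 2) ^ 2 - ((s1 - v1) / 2) ^ 2 = t0 := by
    rw [← hsv]; ring
  have r4 : ((t0 + 1) / 2) ^ 2 - ((t0 - 1) / 2) ^ 2 = t0 := by ring
  rw [r1, r2, r3, r4] at h2
  linarith

/-- the inequality obtained from the symmetric rank-one lines -/
theorem hi {h : ℝ → ℝ} {c : ℝ} (hR : RCp (wf h (lg c))) {X0 Y0 X Y k : ℝ} (hY0 : 0 ≤ Y0)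
    (h0 : Y0 < X0) (hY : 0 ≤ Y) (h1 : Y < X) (hq : |X - X0| ≤ |Y - Y0|)
    (hk : ∀ t, 1 ≤ t → h ((X0 + Y0) / (X0 - Y0)) - c * Real.log ((X0 + Y0) / (X0 - Y0))
      + k * (t - (X0 + Y0) / (X0 - Y0)) ≤ h t - c * Real.log t) :
    k * ((((X ^ 2 - X0 ^ 2 - (Y - Y0) ^ 2) / (2 * X0) + (Y - Y0)) * (X0 - Y0)
        - (X0 + Y0) * ((X ^ 2 - X0 ^ 2 - (Y - Y0) ^ 2) / (2 * X0) - (Y - Y0))) / (X0 - Y0) ^ 2)
      - 2 * c * (((X ^ 2 - X0 ^ 2 - (Y - Y0) ^ 2) / (2 * X0) - (Y - Y0)) / (X0 - Y0))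
      ≤ wr h (lg c) X Y - wr h (lg c) X0 Y0 := by
  have pX0 : 0 < X0 := by linarith
  have pX : 0 < X := by linarith
  set ξ : ℝ := Y - Y0 with hξ
  set X' : ℝ := (X ^ 2 - X0 ^ 2 - ξ ^ 2) / (2 * X0) with hX'
  have hX'e : 2 * X0 * X' = X ^ 2 - X0 ^ 2 - ξ ^ 2 := by rw [hX']; field_simp
  rcases eq_or_ne ξ 0 with hz | hz
  · have e1 : X = X0 := by
      rw [hz, abs_zero] at hq
      have := abs_nonpos_iff.1 hq
      linarith
    have e2 : Y = Y0 := by rw [hξ] at hz; linarith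
    have e3 : X' = 0 := by rw [hX', e1, hz]; simp
    rw [e3, hz, e1, e2]
    simp
  set C : ℝ := X' / ξ with hC
  have hCξ : C * ξ = X' := by rw [hC]; field_simp
  have hCle : C ^ 2 ≤ 1 := by
    rw [hC, div_pow, div_le_one (by positivity)]
    -- `X'^2 ≤ ξ^2`
    have ha : |X - X0| ^ 2 ≤ |ξ| ^ 2 := pow_le_pow_left₀ (abs_nonneg _) hq 2
    rw [sq_abs, sq_abs] at ha
    have hb : ξ ^ 2 ≤ (X + X0) ^ 2 := by
      have : |ξ| ≤ X + X0 := by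
        rw [hξ]
        exact abs_le.2 ⟨by linarith, by linarith⟩
      calc ξ ^ 2 = |ξ| ^ 2 := (sq_abs ξ).symm
        _ ≤ (X + X0) ^ 2 := pow_le_pow_left₀ (abs_nonneg _) this 2
    -- `(2 X0 X')^2 ≤ (2 X0 ξ)^2`
    have hc : 0 ≤ (ξ ^ 2 - (X - X0) ^ 2) * ((X + X0) ^ 2 - ξ ^ 2) :=
      mul_nonneg (by linarith) (by linarith)
    have hd : (2 * X0) ^ 2 * (ξ ^ 2 - X' ^ 2) = (ξ ^ 2 - (X - X0) ^ 2) * ((X + X0) ^ 2 - ξ ^ 2) := by
      have : (2 * X0) ^ 2 * (ξ ^ 2 - X' ^ 2) = (2 * X0) ^ 2 * ξ ^ 2 - (2 * X0 * X') ^ 2 := by ring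
      rw [this, hX'e]
      ring
    rw [← hd] at hc
    have he : 0 < (2 * X0) ^ 2 := by positivity
    have := nonneg_of_mul_nonneg_right hc he
    linarith
  set ζ : ℂ := (C : ℂ) + ((Real.sqrt (1 - C ^ 2) : ℝ) : ℂ) * Complex.I with hζ
  have hζn : ‖ζ‖ = 1 := by
    rw [hζ, Complex.norm_add_mul_I, Real.sq_sqrt (by linarith), add_sub_cancel, Real.sqrt_one]
  set F : ℂ × ℂ := (((X0 : ℝ) : ℂ), ((Y0 : ℝ) : ℂ)) with hF
  set H : ℂ × ℂ := ((ξ : ℂ) * ζ, (ξ : ℂ)) with hH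
  have hHn : ‖H.1‖ = ‖H.2‖ := by
    change ‖(ξ : ℂ) * ζ‖ = ‖(ξ : ℂ)‖
    rw [norm_mul, hζn, mul_one]
  set Xs : ℝ → ℝ := fun σ => Real.sqrt (X0 ^ 2 + 2 * σ * (X0 * X') + σ ^ 2 * ξ ^ 2) with hXs
  have nX : ∀ σ : ℝ, ‖(F + σ • H).1‖ = Xs σ := by
    intro σ
    change ‖((X0 : ℝ) : ℂ) + σ • ((ξ : ℂ) * ζ)‖ = _
    have e : ((X0 : ℝ) : ℂ) + σ • ((ξ : ℂ) * ζ) = ((X0 + σ * X' : ℝ) : ℂ)
        + ((σ * ξ * Real.sqrt (1 - C ^ 2) : ℝ) : ℂ) * Complex.I := by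
      rw [hζ, Complex.real_smul, ← hCξ]
      push_cast
      ring
    rw [e, Complex.norm_add_mul_I, hXs]
    simp only
    congr 1
    rw [mul_pow, Real.sq_sqrt (by linarith)]
    have : X' ^ 2 = C ^ 2 * ξ ^ 2 := by rw [← hCξ]; ring
    linear_combination σ ^ 2 * this
  have nY : ∀ σ : ℝ, 0 ≤ σ → σ ≤ 1 → ‖(F + σ • H).2‖ = Y0 + σ * ξ := by
    intro σ h2 h3
    change ‖((Y0 : ℝ) : ℂ) + σ • (ξ : ℂ)‖ = _
    have e : ((Y0 : ℝ) : ℂ) + σ • (ξ : ℂ) = ((Y0 + σ * ξ : ℝ) : ℂ) := by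
      rw [Complex.real_smul]; push_cast; ring
    rw [e, Complex.norm_real, Real.norm_of_nonneg]
    have : Y0 + σ * ξ = (1 - σ) * Y0 + σ * Y := by rw [hξ]; ring
    rw [this]
    have := mul_nonneg (sub_nonneg.2 h3) hY0
    have := mul_nonneg h2 hY
    linarith
  have nX0 : Xs 0 = X0 := by
    simp only [hXs]
    rw [show X0 ^ 2 + 2 * 0 * (X0 * X') + 0 ^ 2 * ξ ^ 2 = X0 ^ 2 by ring, Real.sqrt_sq pX0.le]
  have nX1 : Xs 1 = X := by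
    simp only [hXs]
    rw [show X0 ^ 2 + 2 * 1 * (X0 * X') + 1 ^ 2 * ξ ^ 2 = X ^ 2 by
      linear_combination hX'e, Real.sqrt_sq pX.le]
  have F1 : ‖F.1‖ = X0 := by
    change ‖((X0 : ℝ) : ℂ)‖ = _
    rw [Complex.norm_real, Real.norm_of_nonneg pX0.le]
  have F2 : ‖F.2‖ = Y0 := by
    change ‖((Y0 : ℝ) : ℂ)‖ = _
    rw [Complex.norm_real, Real.norm_of_nonneg hY0]
  have G1 : ‖(F + H).1‖ = X := by
    have := nX 1
    rw [one_smul, nX1] at this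
    exact this
  have G2 : ‖(F + H).2‖ = Y := by
    have := nY 1 zero_le_one le_rfl
    rw [one_smul] at this
    rw [this, hξ]; ring
  have hFp : ‖F.2‖ < ‖F.1‖ := by rw [F1, F2]; exact h0
  have hGp : ‖(F + H).2‖ < ‖(F + H).1‖ := by rw [G1, G2]; exact h1
  -- the lower bound along the segment
  set t0 : ℝ := (X0 + Y0) / (X0 - Y0) with ht0
  set w0 : ℝ := wr h (lg c) X0 Y0 with hw0
  set w1 : ℝ := wr h (lg c) X Y with hw1
  have key : ∀ σ : ℝ, 0 < σ → σ ≤ 1 → 0 ≤ σ * (w1 - w0)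
      - k * ((Xs σ + (Y0 + σ * ξ)) / (Xs σ - (Y0 + σ * ξ)) - t0)
      + 2 * c * (Real.log (Xs σ - (Y0 + σ * ξ)) - Real.log (X0 - Y0)) := by
    intro σ h2 h3
    have h4 := hR F H hHn hFp hGp σ h2.le h3
    rw [wf_of (nX σ) (nY σ h2.le h3), wf_of F1 F2, wf_of G1 G2, ← hw0, ← hw1] at h4
    have hdp : 0 < dd (F + σ • H) := by
      rw [dd_line F H hHn]
      have g1 := dd_pos.2 hFp
      have g2 := dd_pos.2 hGp
      have : dd F + σ * (dd (F + H) - dd F) = (1 - σ) * dd F + σ * dd (F + H) := by ring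
      rw [this]
      have := mul_nonneg (sub_nonneg.2 h3) g1.le
      have := mul_pos h2 g2
      linarith
    have h5 := dd_pos.1 hdp
    rw [nX σ, nY σ h2.le h3] at h5
    have h6 : 0 ≤ Y0 + σ * ξ := by
      rw [← nY σ h2.le h3]
      exact norm_nonneg _
    have h7 := hk _ (t_ge h6 h5)
    have h8 : wr h (lg c) (Xs σ) (Y0 + σ * ξ) = h ((Xs σ + (Y0 + σ * ξ)) / (Xs σ - (Y0 + σ * ξ)))
        + (-(c * Real.log ((Xs σ + (Y0 + σ * ξ)) / (Xs σ - (Y0 + σ * ξ))))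
          - 2 * c * Real.log (Xs σ - (Y0 + σ * ξ))) := by
      unfold wr
      rw [lg_eq h6 h5]
    have h9 : w0 = h t0 + (-(c * Real.log t0) - 2 * c * Real.log (X0 - Y0)) := by
      rw [hw0]
      unfold wr
      rw [lg_eq hY0 h0]
    rw [h8] at h4
    have h10 : (1 - σ) * w0 + σ * w1 = w0 + σ * (w1 - w0) := by ring
    rw [h10] at h4
    rw [h9] at h4 ⊢
    linarith
  -- the derivative
  have dXs : HasDerivAt Xs X' 0 := by
    have g1 : HasDerivAt (fun σ : ℝ => X0 ^ 2 + 2 * σ * (X0 * X') + σ ^ 2 * ξ ^ 2)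
        (2 * (X0 * X')) 0 := by
      have q1 : HasDerivAt (fun σ : ℝ => 2 * σ * (X0 * X')) (2 * (X0 * X')) 0 := by
        have := ((hasDerivAt_id (0 : ℝ)).const_mul (2 * (X0 * X')))
        refine (this.congr_deriv (by ring)).congr_of_eventuallyEq
          (Filter.Eventually.of_forall fun r => ?_)
        simp only [id]
        ring
      have q2 : HasDerivAt (fun σ : ℝ => σ ^ 2 * ξ ^ 2) 0 0 := by
        have := ((hasDerivAt_pow 2 (0 : ℝ)).mul_const (ξ ^ 2))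
        exact this.congr_deriv (by simp)
      exact ((q1.const_add (X0 ^ 2)).add q2).congr_deriv (by ring)
    have g2 := g1.sqrt (by
      rw [show X0 ^ 2 + 2 * 0 * (X0 * X') + 0 ^ 2 * ξ ^ 2 = X0 ^ 2 by ring]
      positivity)
    refine g2.congr_deriv ?_
    rw [show X0 ^ 2 + 2 * 0 * (X0 * X') + 0 ^ 2 * ξ ^ 2 = X0 ^ 2 by ring, Real.sqrt_sq pX0.le]
    field_simp
  have dY : HasDerivAt (fun σ : ℝ => Y0 + σ * ξ) ξ 0 := by
    have := ((hasDerivAt_id (0 : ℝ)).mul_const ξ).const_add Y0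
    exact this.congr_deriv (by ring)
  have dS := dXs.add dY
  have dV := dXs.sub dY
  have hv0 : Xs 0 - (Y0 + 0 * ξ) = X0 - Y0 := by rw [nX0]; ring
  have hs0 : Xs 0 + (Y0 + 0 * ξ) = X0 + Y0 := by rw [nX0]; ring
  have dT := dS.div dV (by
    simp only [Pi.sub_apply]
    rw [hv0]; linarith)
  have dL := dV.log (by
    simp only [Pi.sub_apply]
    rw [hv0]; linarith)
  simp only [Pi.sub_apply, Pi.add_apply] at dT dL
  rw [hv0, hs0] at dT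
  rw [hv0] at dL
  have dΦ := (((hasDerivAt_id (0 : ℝ)).mul_const (w1 - w0)).sub
    ((dT.sub_const t0).const_mul k)).add ((dL.sub_const (Real.log (X0 - Y0))).const_mul (2 * c))
  have fin := deriv_nonneg' dΦ (by
    simp only [Pi.sub_apply, Pi.add_apply, Pi.div_apply, id]
    rw [hv0, hs0, ← ht0]
    ring) (by
    filter_upwards [Ioo_mem_nhdsGT (zero_lt_one (α := ℝ))] with σ hσ
    have := key σ hσ.1 hσ.2.le
    simp only [Pi.sub_apply, Pi.add_apply, Pi.div_apply, id]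
    linarith)
  linarith

end Pool.Agent.Q62.PS
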