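import Pool.Agent.Q62.PS.Sup

/-! # Support functions for the logarithmic volumetric part, second part -/

set_option autoImplicit false

namespace Pool.Agent.Q62.PS

open Set Filter Topology
open Pool.Agent.Y273.VI (RCp)

/-- the polyconvex support functions -/
def Pf (p1 p2 r C X Y : ℝ) : ℝ := p1 * X + p2 * Y + r * (X ^ 2 - Y ^ 2) + C

/-- the energy `s / v + 2 log v` -/
noncomputable def Wm (X Y : ℝ) : ℝ := (X + Y) / (X - Y) + 2 * Real.log (X - Y)

theorem wr_lg {h : ℝ → ℝ} {c X Y : ℝ} (hY : 0 ≤ Y) (hXY : Y < X) :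
    wr h (lg c) X Y = (h ((X + Y) / (X - Y)) - c * Real.log ((X + Y) / (X - Y)))
      - 2 * c * Real.log (X - Y) := by
  unfold wr
  rw [lg_eq hY hXY]
  ring

theorem wr_scale {h : ℝ → ℝ} {c X Y μ : ℝ} (hY : 0 ≤ Y) (hXY : Y < X) (hμ : 0 < μ) :
    wr h (lg c) (μ * X) (μ * Y) = wr h (lg c) X Y - 2 * c * Real.log μ := by
  have h1 : μ * Y < μ * X := mul_lt_mul_of_pos_left hXY hμ
  rw [wr_lg (by positivity) h1, wr_lg hY hXY, ← mul_add, ← mul_sub, mul_div_mul_left _ _ hμ.ne',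
    Real.log_mul hμ.ne' (by linarith)]
  ring

/-- `s / v` lies above its polyaffine tangent -/
theorem ratio_ge {s v v0 : ℝ} (hs : 0 ≤ s) (hv : 0 < v) (hv0 : 0 < v0) :
    2 * s / v0 - s * v / v0 ^ 2 ≤ s / v := by
  have e : s / v - (2 * s / v0 - s * v / v0 ^ 2) = s * (v - v0) ^ 2 / (v * v0 ^ 2) := by
    field_simp
    ring
  have : 0 ≤ s * (v - v0) ^ 2 / (v * v0 ^ 2) := by positivity
  linarith

theorem log_le_tan {v v0 : ℝ} (hv : 0 < v) (hv0 : 0 < v0) :
    Real.log v ≤ Real.log v0 + (v - v0) / v0 := by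
  have h1 := Real.log_le_sub_one_of_pos (div_pos hv hv0)
  rw [Real.log_div hv.ne' hv0.ne'] at h1
  have : (v - v0) / v0 = v / v0 - 1 := by field_simp
  rw [this]
  linarith

/-- the first kind of support functions -/
theorem sup_ge {h : ℝ → ℝ} {c X0 Y0 k : ℝ} (hc : 0 ≤ c) (hY0 : 0 ≤ Y0) (h0 : Y0 < X0)
    (hkc : c ≤ k)
    (hk : ∀ t, 1 ≤ t → h ((X0 + Y0) / (X0 - Y0)) - c * Real.log ((X0 + Y0) / (X0 - Y0))
      + k * (t - (X0 + Y0) / (X0 - Y0)) ≤ h t - c * Real.log t) :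
    ∃ p1 p2 r C : ℝ, 0 ≤ p1 ∧ 0 ≤ p2 ∧ Pf p1 p2 r C X0 Y0 = wr h (lg c) X0 Y0 ∧
      ∀ X Y, 0 ≤ Y → Y < X → Pf p1 p2 r C X Y ≤ wr h (lg c) X Y := by
  set v0 : ℝ := X0 - Y0 with hv0
  have pv0 : 0 < v0 := by rw [hv0]; linarith
  set t0 : ℝ := (X0 + Y0) / v0 with ht0
  set A : ℝ := h t0 - c * Real.log t0 with hA
  refine ⟨2 * (k - c) / v0, 2 * (k + c) / v0, -k / v0 ^ 2,
    A - k * t0 - 2 * c * Real.log v0 + 2 * c, div_nonneg (by linarith) pv0.le,
    div_nonneg (by linarith) pv0.le, ?_, ?_⟩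
  · rw [wr_lg hY0 h0, ← hv0, ← ht0, ← hA]
    unfold Pf
    have e : X0 = v0 + Y0 := by rw [hv0]; ring
    rw [ht0, e]
    field_simp
    ring
  · intro X Y hY hXY
    rw [wr_lg hY hXY]
    have pv : 0 < X - Y := by linarith
    have h1 := hk _ (t_ge hY hXY)
    have h2 := ratio_ge (s := X + Y) (by linarith) pv pv0
    have h3 := log_le_tan pv pv0
    have h4 := mul_le_mul_of_nonneg_left h2 (hc.trans hkc)
    have h5 := mul_le_mul_of_nonneg_left h3 hc
    have e : Pf (2 * (k - c) / v0) (2 * (k + c) / v0) (-k / v0 ^ 2)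
        (A - k * t0 - 2 * c * Real.log v0 + 2 * c) X Y
        = A - k * t0 + k * (2 * (X + Y) / v0 - (X + Y) * (X - Y) / v0 ^ 2)
          - 2 * (c * (Real.log v0 + (X - Y - v0) / v0)) := by
      unfold Pf
      field_simp
      ring
    rw [e]
    linarith

/-- the second kind of support functions -/
theorem sup_lt {h : ℝ → ℝ} {c : ℝ} (hR : RCp (wf h (lg c))) {X0 Y0 k : ℝ} (hc : 0 < c)
    (hY0 : 0 ≤ Y0) (h0 : Y0 < X0) (hkc : k < c) (hkl : -(c * (X0 - Y0)) ≤ k * (X0 + Y0))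
    (hk : ∀ t, 1 ≤ t → h ((X0 + Y0) / (X0 - Y0)) - c * Real.log ((X0 + Y0) / (X0 - Y0))
      + k * (t - (X0 + Y0) / (X0 - Y0)) ≤ h t - c * Real.log t) :
    ∃ p1 p2 r C : ℝ, 0 ≤ p1 ∧ 0 ≤ p2 ∧ Pf p1 p2 r C X0 Y0 = wr h (lg c) X0 Y0 ∧
      ∀ X Y, 0 ≤ Y → Y < X → Pf p1 p2 r C X Y ≤ wr h (lg c) X Y := by
  set v0 : ℝ := X0 - Y0 with hv0
  set s0 : ℝ := X0 + Y0 with hs0
  have pv0 : 0 < v0 := by rw [hv0]; linarith
  have ps0 : 0 < s0 := by rw [hs0]; linarith
  have pX0 : 0 < X0 := by linarith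
  have hvs : v0 ≤ s0 := by rw [hv0, hs0]; linarith
  set ρ : ℝ := (k * (s0 - v0) / v0 ^ 2 + 2 * c / v0) / (s0 + v0) with hρ
  set a : ℝ := 2 * (k * s0 / v0 + c) / (s0 + v0) with ha
  have ha0 : 0 ≤ a := by
    rw [ha]
    have : 0 ≤ k * s0 / v0 + c := by
      have e : k * s0 / v0 + c = (k * s0 + c * v0) / v0 := by field_simp
      rw [e]
      exact div_nonneg (by linarith) pv0.le
    positivity
  have hρ0 : 0 < ρ := by
    rw [hρ]
    have e : k * (s0 - v0) / v0 ^ 2 + 2 * c / v0 = ((k * s0) * (s0 - v0) + 2 * c * v0 * s0)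
        / (v0 ^ 2 * s0) := by field_simp
    rw [e]
    have h1 : -(c * v0) * (s0 - v0) ≤ (k * s0) * (s0 - v0) :=
      mul_le_mul_of_nonneg_right hkl (by linarith)
    have h2 : 0 < c * v0 * (s0 + v0) := by positivity
    have h3 : 0 < (k * s0) * (s0 - v0) + 2 * c * v0 * s0 := by nlinarith
    positivity
  -- the contact condition
  have hcon : 2 * ρ * (s0 * v0) - a * (s0 - v0) = 2 * c := by
    rw [hρ, ha]
    field_simp
    ring
  -- the discriminant
  have hdis : a ^ 2 ≤ 4 * ρ * c := by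
    have e : (s0 + v0) ^ 2 * v0 ^ 2 * (a ^ 2 - 4 * ρ * c) = 4 * (k - c) * (k * s0 * s0
        + 2 * c * s0 * v0 + c * v0 ^ 2) := by
      rw [hρ, ha]
      field_simp
      ring
    have h1 : 0 < k * s0 * s0 + 2 * c * s0 * v0 + c * v0 ^ 2 := by
      have := mul_le_mul_of_nonneg_right hkl ps0.le
      have : 0 < c * s0 * v0 := by positivity
      have : 0 < c * v0 ^ 2 := by positivity
      nlinarith
    have h2 : 4 * (k - c) * (k * s0 * s0 + 2 * c * s0 * v0 + c * v0 ^ 2) ≤ 0 :=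
      mul_nonpos_of_nonpos_of_nonneg (by linarith) h1.le
    rw [← e] at h2
    have h3 : 0 < (s0 + v0) ^ 2 * v0 ^ 2 := by positivity
    by_contra hcon2
    push Not at hcon2
    have : 0 < (s0 + v0) ^ 2 * v0 ^ 2 * (a ^ 2 - 4 * ρ * c) := mul_pos h3 (by linarith)
    linarith
  set w0 : ℝ := wr h (lg c) X0 Y0 with hw0
  refine ⟨0, 2 * a, -ρ, w0 - a * (s0 - v0) + ρ * (s0 * v0), le_rfl, by positivity, ?_, ?_⟩
  · unfold Pf
    rw [hs0, hv0]
    ring
  · intro X Y hY hXY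
    have pv : 0 < X - Y := by linarith
    have ps : 0 < X + Y := by linarith
    set s : ℝ := X + Y with hs
    set v : ℝ := X - Y with hv
    have psv : 0 < ρ * (s * v) := by positivity
    -- the scaling to the contact curve
    set B : ℝ := a * (s - v) with hB
    have hB0 : 0 ≤ B := mul_nonneg ha0 (by rw [hs, hv]; linarith)
    set μ : ℝ := (B + Real.sqrt (B ^ 2 + 16 * (ρ * (s * v)) * c)) / (4 * (ρ * (s * v))) with hμ
    have hDp : 0 < B ^ 2 + 16 * (ρ * (s * v)) * c := by positivity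
    have hμ0 : 0 < μ := by
      rw [hμ]
      have := Real.sqrt_pos.2 hDp
      positivity
    have hμq : 2 * (ρ * (s * v)) * μ ^ 2 - B * μ = 2 * c := by
      have hsq : Real.sqrt (B ^ 2 + 16 * (ρ * (s * v)) * c) ^ 2
          = B ^ 2 + 16 * (ρ * (s * v)) * c := Real.sq_sqrt hDp.le
      set q : ℝ := Real.sqrt (B ^ 2 + 16 * (ρ * (s * v)) * c) with hq
      set g : ℝ := ρ * (s * v) with hg
      have e : 2 * g * μ ^ 2 - B * μ - 2 * c = (q ^ 2 - (B ^ 2 + 16 * g * c)) / (8 * g) := by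
        rw [hμ]
        field_simp
        ring
      rw [hsq, sub_self, zero_div] at e
      linarith
    set s1 : ℝ := μ * s with hs1
    set v1 : ℝ := μ * v with hv1
    have ps1 : 0 < s1 := by positivity
    have pv1 : 0 < v1 := by positivity
    have hcon1 : 2 * ρ * (s1 * v1) - a * (s1 - v1) = 2 * c := by
      rw [← hμq, hs1, hv1, hB]; ring
    -- the point of the curve is in the good quadrants
    have hgood : (s1 - s0) * (v1 - v0) ≤ 0 := by
      have g1 : v1 * (a + 2 * ρ * s1) = a * s1 + 2 * c := by linarith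
      have g0 : v0 * (a + 2 * ρ * s0) = a * s0 + 2 * c := by linarith
      have m1 : 0 < a + 2 * ρ * s1 := by positivity
      have m0 : 0 < a + 2 * ρ * s0 := by positivity
      have e : (v1 - v0) * ((a + 2 * ρ * s1) * (a + 2 * ρ * s0))
          = (a ^ 2 - 4 * ρ * c) * (s1 - s0) := by
        have : (v1 - v0) * ((a + 2 * ρ * s1) * (a + 2 * ρ * s0))
            = (v1 * (a + 2 * ρ * s1)) * (a + 2 * ρ * s0)
              - (v0 * (a + 2 * ρ * s0)) * (a + 2 * ρ * s1) := by ring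
        rw [this, g1, g0]
        ring
      have e2 : (s1 - s0) * (v1 - v0) * ((a + 2 * ρ * s1) * (a + 2 * ρ * s0))
          = (a ^ 2 - 4 * ρ * c) * (s1 - s0) ^ 2 := by
        linear_combination (s1 - s0) * e
      have h3 : (a ^ 2 - 4 * ρ * c) * (s1 - s0) ^ 2 ≤ 0 :=
        mul_nonpos_of_nonpos_of_nonneg (by linarith) (sq_nonneg _)
      rw [← e2] at h3
      have h4 : 0 < (a + 2 * ρ * s1) * (a + 2 * ρ * s0) := mul_pos m1 m0
      by_contra hcon2
      push Not at hcon2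
      have := mul_pos hcon2 h4
      linarith
    have hY1 : 0 ≤ μ * Y := by positivity
    have hXY1 : μ * Y < μ * X := mul_lt_mul_of_pos_left hXY hμ0
    have hq : |μ * X - X0| ≤ |μ * Y - Y0| := by
      rw [← sq_le_sq]
      have e : (s1 - s0) * (v1 - v0) = (μ * X - X0) ^ 2 - (μ * Y - Y0) ^ 2 := by
        rw [hs1, hv1, hs, hv, hs0, hv0]; ring
      rw [e] at hgood
      linarith
    have h1 := hi hR hY0 h0 hY1 hXY1 hq hk
    rw [wr_scale hY hXY hμ0, ← hw0, ← hv0, ← hs0] at h1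
    -- the tangent in terms of `a`, `ρ`
    have hid : k * (((((μ * X) ^ 2 - X0 ^ 2 - (μ * Y - Y0) ^ 2) / (2 * X0) + (μ * Y - Y0)) * v0
          - s0 * (((μ * X) ^ 2 - X0 ^ 2 - (μ * Y - Y0) ^ 2) / (2 * X0) - (μ * Y - Y0))) / v0 ^ 2)
        - 2 * c * ((((μ * X) ^ 2 - X0 ^ 2 - (μ * Y - Y0) ^ 2) / (2 * X0) - (μ * Y - Y0)) / v0)
        = a * ((s1 - v1) - (s0 - v0)) - ρ * (s1 * v1 - s0 * v0) := by
      have e1 : s1 - v1 = 2 * (μ * Y) := by rw [hs1, hv1, hs, hv]; ring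
      have e2 : s1 * v1 = (μ * X) ^ 2 - (μ * Y) ^ 2 := by rw [hs1, hv1, hs, hv]; ring
      have e3 : s0 - v0 = 2 * Y0 := by rw [hs0, hv0]; ring
      have e4 : s0 * v0 = X0 ^ 2 - Y0 ^ 2 := by rw [hs0, hv0]; ring
      have e5 : s0 + v0 = 2 * X0 := by rw [hs0, hv0]; ring
      have eρ : ρ * (2 * X0) = k * (s0 - v0) / v0 ^ 2 + 2 * c / v0 := by
        rw [hρ, e5]; field_simp
      have ea : a * (2 * X0) = 2 * (k * s0 / v0 + c) := by
        rw [ha, e5]; field_simp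
      set x : ℝ := μ * X with hx
      set y : ℝ := μ * Y with hy
      rw [e1, e2, e3, e4]
      have key : (2 * X0) * (k * ((((x ^ 2 - X0 ^ 2 - (y - Y0) ^ 2) / (2 * X0) + (y - Y0)) * v0
          - s0 * ((x ^ 2 - X0 ^ 2 - (y - Y0) ^ 2) / (2 * X0) - (y - Y0))) / v0 ^ 2)
        - 2 * c * (((x ^ 2 - X0 ^ 2 - (y - Y0) ^ 2) / (2 * X0) - (y - Y0)) / v0))
        = (2 * X0) * (a * (2 * y - 2 * Y0) - ρ * (x ^ 2 - y ^ 2 - (X0 ^ 2 - Y0 ^ 2))) := by
        have r1 : (2 * X0) * (a * (2 * y - 2 * Y0) - ρ * (x ^ 2 - y ^ 2 - (X0 ^ 2 - Y0 ^ 2)))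
            = (a * (2 * X0)) * (2 * y - 2 * Y0)
              - (ρ * (2 * X0)) * (x ^ 2 - y ^ 2 - (X0 ^ 2 - Y0 ^ 2)) := by ring
        rw [r1, eρ, ea]
        field_simp
        rw [hs0, hv0]
        ring
      exact mul_left_cancel₀ (by positivity) key
    rw [hid] at h1
    -- conclusion
    set R : ℝ := ρ * (s1 * v1) with hRr
    have hR0 : 0 ≤ R := by positivity
    have hA : a * (s1 - v1) = 2 * R - 2 * c := by rw [hRr]; linarith
    have hlog : Real.log μ ≥ -(1 / μ - 1) := by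
      have := Real.log_le_sub_one_of_pos (show 0 < 1 / μ by positivity)
      rw [one_div, Real.log_inv] at this
      rw [one_div]
      linarith
    have e1 : a * (s - v) = (2 * R - 2 * c) / μ := by
      rw [← hA, hs1, hv1]; field_simp
    have e2 : ρ * (s * v) = R / μ ^ 2 := by
      rw [hRr, hs1, hv1]; field_simp
    have e3 : Pf 0 (2 * a) (-ρ) (w0 - a * (s0 - v0) + ρ * (s0 * v0)) X Y
        = (2 * R - 2 * c) / μ - R / μ ^ 2 + w0 - a * (s0 - v0) + ρ * (s0 * v0) := by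
      rw [← e1, ← e2]
      unfold Pf
      rw [hs, hv]; ring
    rw [e3]
    have e4 : a * (s1 - v1 - (s0 - v0)) - ρ * (s1 * v1 - s0 * v0)
        = 2 * R - 2 * c - R - a * (s0 - v0) + ρ * (s0 * v0) := by
      rw [hRr]
      have := hA
      rw [hRr] at this
      linear_combination this
    rw [e4] at h1
    have e5 : 0 ≤ R * (1 - 1 / μ) ^ 2 := mul_nonneg hR0 (sq_nonneg _)
    have e6 : (2 * R - 2 * c) / μ - R / μ ^ 2 = (2 * R - 2 * c - R) + 2 * c * (1 - 1 / μ)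
        - R * (1 - 1 / μ) ^ 2 := by
      field_simp
      ring
    have e7 := mul_le_mul_of_nonneg_left hlog hc.le
    rw [e6]
    linarith

end Pool.Agent.Q62.PS
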