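import Pool.Agent.Q62.PS.Sup2

/-! # Support functions for the logarithmic volumetric part, conclusion -/

set_option autoImplicit false

namespace Pool.Agent.Q62.PS

open Set Filter Topology
open Pool.Agent.Y273.VI (RCp)

/-- the section of the energy -/
noncomputable def Gs (h : ℝ → ℝ) (c x : ℝ) : ℝ := gg h (lg c) x 1

theorem Gs_conv {h : ℝ → ℝ} {c : ℝ} (hR : RCp (wf h (lg c))) : ConvexOn ℝ (Ioi 0) (Gs h c) :=
  gg_conv hR one_pos

theorem Gs_eq {h : ℝ → ℝ} {c x : ℝ} (hx : 1 ≤ x) : Gs h c x = h x - c * Real.log x := by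
  unfold Gs gg lg
  rw [max_eq_left hx, min_eq_right hx, div_one, mul_one]
  ring

/-- the slopes, `c ≥ 0` -/
theorem slope_pos {h : ℝ → ℝ} {c : ℝ} (hR : RCp (wf h (lg c))) (hc : 0 ≤ c) {t0 : ℝ}
    (h0 : 1 ≤ t0) : ∃ k, -(c / t0) ≤ k ∧
      ∀ t, 1 ≤ t → h t0 - c * Real.log t0 + k * (t - t0) ≤ h t - c * Real.log t := by
  have p0 : 0 < t0 := by linarith
  obtain ⟨k, hk, hs⟩ := right_slope (Gs_conv hR) (t := t0) (b := t0 + 1) (L := -(c / t0))
    (mem_Ioi.2 p0) (mem_Ioi.2 (by linarith)) (by linarith) (by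
      intro u hu htu
      have hu1 : 1 ≤ u := by linarith
      have hup : 0 < u := by linarith
      rw [Gs_eq hu1, Gs_eq h0]
      have h1 := be hR h0 htu.le
      have h2 := log_le_tan hup p0
      have h3 := mul_le_mul_of_nonneg_left h2 hc
      have e : c * (Real.log t0 + (u - t0) / t0) = c * Real.log t0 + c / t0 * (u - t0) := by
        field_simp
      rw [e] at h3
      linarith)
  refine ⟨k, hk, fun t ht => ?_⟩
  have := hs t (mem_Ioi.2 (by linarith))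
  rw [Gs_eq ht, Gs_eq h0] at this
  exact this

theorem sub_log_le {y : ℝ} (hy : 1 ≤ y) : y - 1 - Real.log y ≤ (y - 1) ^ 2 := by
  have py : 0 < y := by linarith
  have h1 := Real.log_le_sub_one_of_pos (show 0 < 1 / y by positivity)
  rw [one_div, Real.log_inv] at h1
  have h2 : (y - 1) - (1 - y⁻¹) = (y - 1) ^ 2 / y := by
    field_simp
    try ring
  have h3 : (y - 1) ^ 2 / y ≤ (y - 1) ^ 2 := div_le_self (sq_nonneg _) hy
  linarith

/-- monotonicity, `c ≤ 0` -/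
theorem mono_neg {h : ℝ → ℝ} {c : ℝ} (hR : RCp (wf h (lg c))) (hc : c ≤ 0) {t0 u : ℝ}
    (h0 : 1 ≤ t0) (hu : t0 ≤ u) : Gs h c t0 + c * t0 ≤ Gs h c u + c * u := by
  have hcv := Gs_conv hR
  have m1 : (1 : ℝ) ∈ Ioi (0 : ℝ) := mem_Ioi.2 one_pos
  -- at the point `1`
  have A : ∀ u, 1 ≤ u → Gs h c 1 + c * 1 ≤ Gs h c u + c * u := by
    intro u hu
    rcases eq_or_lt_of_le hu with h1 | h1
    · rw [← h1]
    refine le_of_forall_pos_le_add fun ε hε => ?_
    have hd : 0 < u - 1 := by linarith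
    -- a small step
    obtain ⟨δ, hδ0, hδ1, hδ2⟩ : ∃ δ : ℝ, 0 < δ ∧ δ ≤ u - 1 ∧ -c * δ * (u - 1) ≤ ε := by
      refine ⟨min (u - 1) (ε / ((-c + 1) * (u - 1))), lt_min hd (by
        have : 0 < -c + 1 := by linarith
        positivity), min_le_left _ _, ?_⟩
      have hc1 : 0 < -c + 1 := by linarith
      have h2 : min (u - 1) (ε / ((-c + 1) * (u - 1))) ≤ ε / ((-c + 1) * (u - 1)) :=
        min_le_right _ _
      have h3 : 0 < min (u - 1) (ε / ((-c + 1) * (u - 1))) := lt_min hd (by positivity)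
      rw [le_div_iff₀ (by positivity)] at h2
      nlinarith [mul_pos h3 hd]
    set y : ℝ := 1 + δ with hy
    have hy1 : 1 ≤ y := by linarith
    have h2 := chord hcv (a := 1) (b := y) (c := u) m1 (mem_Ioi.2 (by linarith)) hy1
      (by linarith)
    have h3 := be hR (t0 := 1) (t1 := y) le_rfl hy1
    have h4 := sub_log_le hy1
    have h5 : Gs h c y = h y - c * Real.log y := Gs_eq hy1
    have h6 : Gs h c 1 = h 1 := by rw [Gs_eq le_rfl]; simp
    rw [h5, h6] at h2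
    rw [h6]
    have e1 : y - 1 = δ := by rw [hy]; ring
    have e2 : u - y = (u - 1) - δ := by rw [hy]; ring
    rw [e1, e2] at h2
    rw [e1] at h4
    -- `h y - c log y - h 1 ≥ - c log y ≥ -c (δ - δ^2)`
    have h7 : -c * (δ - δ ^ 2) ≤ -c * Real.log y :=
      mul_le_mul_of_nonneg_left (by linarith) (by linarith)
    have h8 : (-c * (δ - δ ^ 2)) * (u - 1) ≤ (h y - c * Real.log y - h 1) * (u - 1) :=
      mul_le_mul_of_nonneg_right (by linarith) hd.le
    have h9 : (-c * (δ - δ ^ 2)) * (u - 1) ≤ (Gs h c u - h 1) * δ := by nlinarith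
    have h10 : (-c * (1 - δ) * (u - 1)) * δ ≤ (Gs h c u - h 1) * δ := by nlinarith
    have h11 := le_of_mul_le_mul_right h10 hδ0
    nlinarith
  rcases eq_or_lt_of_le h0 with h1 | h1
  · rw [← h1]
    exact A u (h0.trans hu)
  rcases eq_or_lt_of_le hu with h2 | h2
  · rw [h2]
  have h3 := chord hcv (a := 1) (b := t0) (c := u) m1 (mem_Ioi.2 (by linarith)) h0 hu
  have h4 := A t0 h0
  have h5 : 0 < t0 - 1 := by linarith
  have h6 : (Gs h c t0 + c * t0) * (t0 - 1) ≤ (Gs h c u + c * u) * (t0 - 1) := by nlinarith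
  exact le_of_mul_le_mul_right h6 h5

/-- the slopes, `c ≤ 0` -/
theorem slope_neg {h : ℝ → ℝ} {c : ℝ} (hR : RCp (wf h (lg c))) (hc : c ≤ 0) {t0 : ℝ}
    (h0 : 1 ≤ t0) : ∃ k, 0 ≤ k ∧ ∀ t, 1 ≤ t →
      h t0 - c * Real.log t0 + c * t0 + k * (t - t0) ≤ h t - c * Real.log t + c * t := by
  have p0 : 0 < t0 := by linarith
  have hcv : ConvexOn ℝ (Ioi 0) (fun x => Gs h c x + c * x) := by
    have h1 : ConvexOn ℝ (Ioi 0) (fun x : ℝ => c * x) := by
      refine ⟨convex_Ioi 0, fun x _ y _ a b _ _ _ => le_of_eq ?_⟩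
      simp only [smul_eq_mul]
      ring
    exact (Gs_conv hR).add h1
  obtain ⟨k, hk, hs⟩ := right_slope hcv (t := t0) (b := t0 + 1) (L := 0)
    (mem_Ioi.2 p0) (mem_Ioi.2 (by linarith)) (by linarith) (by
      intro u hu htu
      have := mono_neg hR hc h0 htu.le
      linarith)
  refine ⟨k, hk, fun t ht => ?_⟩
  have := hs t (mem_Ioi.2 (by linarith))
  rw [Gs_eq ht, Gs_eq h0] at this
  exact this

/-- **the support functions** -/
theorem support {h : ℝ → ℝ} {c : ℝ} (hR : RCp (wf h (lg c))) : ∃ e : ℝ, 0 ≤ e ∧ (0 ≤ c → e = 0) ∧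
    ∀ X0 Y0, 0 ≤ Y0 → Y0 < X0 → ∃ p1 p2 r C : ℝ, 0 ≤ p1 ∧ 0 ≤ p2 ∧
      Pf p1 p2 r C X0 Y0 + e * Wm X0 Y0 = wr h (lg c) X0 Y0 ∧
      ∀ X Y, 0 ≤ Y → Y < X → Pf p1 p2 r C X Y + e * Wm X Y ≤ wr h (lg c) X Y := by
  rcases le_or_gt 0 c with hc | hc
  · refine ⟨0, le_rfl, fun _ => rfl, fun X0 Y0 hY0 h0 => ?_⟩
    obtain ⟨k, hkl, hk⟩ := slope_pos hR hc (t_ge hY0 h0)
    have pv0 : 0 < X0 - Y0 := by linarith
    have ps0 : 0 < X0 + Y0 := by linarith
    have hkl' : -(c * (X0 - Y0)) ≤ k * (X0 + Y0) := by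
      rw [div_div_eq_mul_div, ← neg_div, div_le_iff₀ ps0] at hkl
      exact hkl
    rcases le_or_gt c k with h1 | h1
    · obtain ⟨p1, p2, r, C, q1, q2, q3, q4⟩ := sup_ge hc hY0 h0 h1 hk
      exact ⟨p1, p2, r, C, q1, q2, by rw [zero_mul, add_zero]; exact q3,
        fun X Y h2 h3 => by rw [zero_mul, add_zero]; exact q4 X Y h2 h3⟩
    · have hc' : 0 < c := by
        rcases eq_or_lt_of_le hc with h2 | h2
        · rw [← h2] at hkl' h1
          have : 0 ≤ k * (X0 + Y0) := by linarith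
          have := nonneg_of_mul_nonneg_left this ps0
          linarith
        · exact h2
      obtain ⟨p1, p2, r, C, q1, q2, q3, q4⟩ := sup_lt hR hc' hY0 h0 h1 hkl' hk
      exact ⟨p1, p2, r, C, q1, q2, by rw [zero_mul, add_zero]; exact q3,
        fun X Y h2 h3 => by rw [zero_mul, add_zero]; exact q4 X Y h2 h3⟩
  · refine ⟨-c, by linarith, fun h2 => absurd h2 (not_le.2 hc), fun X0 Y0 hY0 h0 => ?_⟩
    obtain ⟨k, hk0, hk⟩ := slope_neg hR hc.le (t_ge hY0 h0)
    have pv0 : 0 < X0 - Y0 := by linarith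
    set v0 : ℝ := X0 - Y0 with hv0
    set t0 : ℝ := (X0 + Y0) / v0 with ht0
    set A : ℝ := h t0 - c * Real.log t0 + c * t0 with hA
    refine ⟨2 * k / v0, 2 * k / v0, -k / v0 ^ 2, A - k * t0, by positivity, by positivity,
      ?_, ?_⟩
    · rw [wr_lg hY0 h0, ← hv0, ← ht0]
      unfold Pf Wm
      rw [← hv0, ← ht0]
      have e : 2 * k / v0 * X0 + 2 * k / v0 * Y0 + -k / v0 ^ 2 * (X0 ^ 2 - Y0 ^ 2) = k * t0 := by
        have e1 : X0 ^ 2 - Y0 ^ 2 = (X0 + Y0) * v0 := by rw [hv0]; ring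
        rw [e1, ht0]
        field_simp
        ring
      rw [show 2 * k / v0 * X0 + 2 * k / v0 * Y0 + -k / v0 ^ 2 * (X0 ^ 2 - Y0 ^ 2) + (A - k * t0)
        = k * t0 + (A - k * t0) by rw [e]]
      rw [hA]
      ring
    · intro X Y hY hXY
      rw [wr_lg hY hXY]
      have pv : 0 < X - Y := by linarith
      have h1 := hk _ (t_ge hY hXY)
      have h2 := ratio_ge (s := X + Y) (by linarith) pv pv0
      have h4 := mul_le_mul_of_nonneg_left h2 hk0
      have e : Pf (2 * k / v0) (2 * k / v0) (-k / v0 ^ 2) (A - k * t0) X Y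
          = A - k * t0 + k * (2 * (X + Y) / v0 - (X + Y) * (X - Y) / v0 ^ 2) := by
        unfold Pf
        field_simp
        ring
      rw [e]
      unfold Wm
      linarith

end Pool.Agent.Q62.PS
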